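import Pool.Agent.DVX.Z13

set_option autoImplicit false

/-!
Boxes of the certificate for 13 points: r0z.
-/

namespace Pool.Agent.DVX

open Pool.Agent.BPK Pool.Agent.SDL

/-- The tree. -/
def k13_r0z : List ℕ := [
  0x04066630163130223215323210444532321114040403102321532321044443132111404040310210,
  0x32100446444313214032140211404066666322165132166663110431312265151321004466322114,
  0x56232106640666313220321632321256251513216446321404066632103211632321322562515131,
  0x60260660621266062125625151516210214445626622111404040651405151662661166632126621,
  0x22602165166321631321606031322160631323132313226053232121606060602166660216660166,
  0x02125625151666666313226021606666632116016323126016323132312601260265166666311603,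
  0x64066066631063130322263216323102102220125660251515151666216606662660621026661066,
  0x61033361601022244466262111404040066632612616026606262066266660166666663222061011,
  0x662666621216406516210666216662166120661661036336012163240]

theorem c13_r0z : checkE 155 32 26 26
    ⟨2, 0, 3, 2, 0, 3, 2, 0, 3⟩
    (items 8 8 8 d13.Z [uv, vt]
    [])
    [8, 0, 0, 109] (joinC k13_r0z) = true := by
  decide +kernel

end Pool.Agent.DVX
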