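import Pool.Agent.DVX.Z13

set_option autoImplicit false

/-!
Boxes of the certificate for 13 points: r0a.
-/

namespace Pool.Agent.DVX

open Pool.Agent.BPK Pool.Agent.SDL

/-- The tree. -/
def k13_r0a : List ℕ := [
  0x60232616023210105244461114040400561555620610615626160603106302323103230131302102,
  0x11205556160162032530124445562214032114040555615626002154040405616260105560156061,
  0x06323031323013231032310303114313102551555554455532211100556156032600253253260600,
  0x16666321006666631003210632313120663206303130320313216663106303102663206303230132,
  0x23013230132144446323214032111404040310105561561615616321561632103200066313003231,
  0x21663103231026663100663103026632130321320666320632301266320630321320663106303213,
  0x16324031021056162663210632404040066632106323103230126666632110066666321000663103,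
  0x12106632310323120101540404040556666666321100002154040664663211006646321006631032,
  0x02561626666321000102556215616066631100256266663003221156266663006303012166310323,
  0x03213031230313031031144311404040303102255555556211000555556210055556010561561602,
  0x00630302163031320630323031302310166303203131303230311066630312063030321663206303,
  0x11000066663210066632106303231021056166632110666630322106632063032132106663200663,
  0x40663106631031302313010105555562100055602615616066632006323010310155610566666532,
  0x31140404040310555566666321100066666300630312210666300066310301663213031201154040,
  0x31066666311000663030231063032301302310163030321666313216631063031031223031310144,
  0x05625561600626101556025560162601626156261613160606032001556105616160606016631006,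
  0x60666631000663213012010555556220055560125556020556105616021561606060602010555612,
  0x30302114514040404031055554005561066663006313022201105555600055555621000556120561,
  0x02616012015562155561056106016160202155516220555610313155610615313160606003131260,
  0x01011445521140404040551505555555556221100555611055555621000556105626010556005606,
  0x50012550502555050255205515052252551550525125252551525255155315613100312530312032,
  0x15201255055055255101255555622225125151505150505120552555510512155155501550512055,
  0x55562211000555506602221154040555050622102221055555502012555555512000515105155255,
  0x43131010525252525210105505155105515510660225562251145521404040551505550055055555,
  0x61111505252551510150214552140404055555610611015405556110540531606030106303031152,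
  0x15021010214455211404040405550515510255555555611112552025505501021551551205505555,
  0x51520255206155061215505251550550110550555555555061111022555555561110055020556621,
  0x55551010555501154055155101025555155055052101154055511540510102552551055025505515,
  0x5]

theorem c13_r0a : checkE 154 32 26 25
    ⟨2, 0, 3, 2, 0, 3, 2, 0, 3⟩
    (items 8 8 8 d13.A [uv]
    [(17716740096, gmE)])
    [8, 0, 112, 112] (joinC k13_r0a) = true := by
  decide +kernel

end Pool.Agent.DVX
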