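import Pool.Agent.DVX.Z13

set_option autoImplicit false

/-!
Boxes of the certificate for 13 points: r1a, r1e, r1d.
-/

namespace Pool.Agent.DVX

open Pool.Agent.BPK Pool.Agent.SDL

/-- The tree. -/
def k13_r1a : List ℕ := [
  0x25131501114024441244445421140342314014240421140404445512224040444322241404012121,
  0x11505045452124140403545232115050215021224414421444514454211404023354451140404022,
  0x4414441143244141354523232]

theorem c13_r1a : checkE 210 32 6 19
    ⟨200, 300, 319, 2, 0, 3, 2, 0, 3⟩
    (items 8 8 8 d13.A []
    [(26575110144, gmE)])
    [0, 138, 138] (joinC k13_r1a) = true := by
  decide +kernel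

/-- The tree. -/
def k13_r1e : List ℕ := [
  0x05320311214445220444521045151553205303210215531320313224515053231032313212102121,
  0x11100443114323122144444452210452453224515232101224444521144444521000445150214525,
  0x22111505045531215053132312125453115050503123132145453221501505321022502244444451,
  0x14023554045140402225131143421012144412444445142140421542421114040444445114455443,
  0x24455401224141401355540320452032145241404055400211202212441424314404514454510421,
  0x54520045540021241133545211350540524110321255403204520455400241401355545200452011,
  0x44241443224414440401404141535554110103255414155410252104532]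

theorem c13_r1e : checkE 232 32 6 23
    ⟨200, 300, 319, 2, 0, 3, 2, 0, 3⟩
    (items 9 8 8 (comb [((sb d13.L d13.e), d13.Z), (d13.e, d13.A)]) []
    [(168309030912, gmE)])
    [0, 153, 153] (joinC k13_r1e) = true := by
  decide +kernel

/-- The tree. -/
def k13_r1d : List ℕ := [
  0x43224444451512110444445152210045151452525153010125531031322045531032031321212121,
  0x21140404444444452110005445531322225014040404055322504040501222444444522104521104,
  0x14414424451402445421140404023354451140404022251314040111244412444454242114054214,
  0x44144441214324414135545232111441032454521241405540452113221441021224414]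

theorem c13_r1d : checkE 232 32 6 21
    ⟨200, 300, 319, 2, 0, 3, 2, 0, 3⟩
    (items 9 8 8 (comb [(d13.e, d13.A), ((sb d13.L d13.e), d13.D)]) []
    [(336618061824, gmE)])
    [0, 153, 153] (joinC k13_r1d) = true := by
  decide +kernel

end Pool.Agent.DVX
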