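import Pool.Agent.DVX.Z13

set_option autoImplicit false

/-!
Boxes of the certificate for 13 points: r2a, r2t, r2x, r2s, r2y, r2l.
-/

namespace Pool.Agent.DVX

open Pool.Agent.BPK Pool.Agent.SDL

/-- The tree. -/
def k13_r2a : List ℕ := [
  0x44242]

theorem c13_r2a : checkE 266 32 0 3
    ⟨200, 300, 319, 200, 300, 319, 2, 0, 3⟩
    (items 8 8 8 d13.A []
    [])
    [7, 186] (joinC k13_r2a) = true := by
  decide +kernel

/-- The tree. -/
def k13_r2t : List ℕ := [
  0x51260555600525651020102156032514614032560321046403214005526515260556510052101322,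
  0x46640214044614612140205656510251640626461405266405261052105651021005560516560602,
  0x56056020126461402055605605602605556002120165560251602461404614020565601656012012,
  0x65606025156062605]

theorem c13_r2t : checkE 300 32 17 15
    ⟨200, 300, 319, 200, 300, 319, 2, 0, 3⟩
    (items 9 9 8 (comb [((sb d13.L d13.e), d13.Z), (d13.f, d13.A), ((sb d13.e d13.f), d13.B)])
      [uv]
    [(504927092736, uv)])
    [24, 0, 228, 228] (joinC k13_r2t) = true := by
  decide +kernel

/-- The tree. -/
def k13_r2x : List ℕ := [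
  0x662662322]

theorem c13_r2x : checkE 301 32 17 4
    ⟨200, 300, 319, 200, 300, 319, 2, 0, 3⟩
    (items 9 9 8 (comb [((sb (sb d13.L d13.e) d13.f), d13.Z), (d13.e, d13.B), (d13.f, d13.D)])
      [uv, (sb (sb d13.L d13.e) d13.f)]
    [])
    [24, 0, 8, 229] (joinC k13_r2x) = true := by
  decide +kernel

/-- The tree. -/
def k13_r2s : List ℕ := [
  0x442442322]

theorem c13_r2s : checkE 288 32 0 4
    ⟨200, 300, 319, 200, 300, 319, 2, 0, 3⟩
    (items 9 8 8 (comb [(d13.e, d13.A), ((sb d13.L d13.e), d13.D)]) []
    [])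
    [7, 201] (joinC k13_r2s) = true := by
  decide +kernel

/-- The tree. -/
def k13_r2y : List ℕ := [
  0x51046146126165102552104446100460460626160165101461616510510336500133501510322322,
  0x02666510665102065665102501666510625012501460460264604602616021651021646126621662,
  0x446104446046021]

theorem c13_r2y : checkE 288 32 9 13
    ⟨200, 300, 319, 200, 300, 319, 2, 0, 3⟩
    (items 9 8 8 (comb [(d13.e, d13.B), ((sb d13.L d13.e), d13.D)]) [(sb (sb d13.L d13.e) d13.f)]
    [(16830903091, (sb (sb d13.L d13.e) d13.f))])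
    [16, 0, 210, 210] (joinC k13_r2y) = true := by
  decide +kernel

/-- The tree. -/
def k13_r2l : List ℕ := [
  0x666650102666501062322]

theorem c13_r2l : checkE 300 32 17 7
    ⟨200, 300, 319, 200, 300, 319, 2, 0, 3⟩
    (items 9 9 8 (comb [((sb (Ex.add d13.e d13.f) d13.L), d13.A), ((sb d13.L d13.f), d13.B), ((sb
      d13.L d13.e), d13.D)]) [uv, (sb (Ex.add d13.e d13.f) d13.L)]
    [])
    [24, 0, 8, 229] (joinC k13_r2l) = true := by
  decide +kernel

end Pool.Agent.DVX
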