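import Pool.Agent.DVX.Z13

set_option autoImplicit false

/-!
Boxes of the certificate for 13 points: r2e.
-/

namespace Pool.Agent.DVX

open Pool.Agent.BPK Pool.Agent.SDL

/-- The tree. -/
def k13_r2e : List ℕ := [
  0x10101656565165603210326056516056026055605602605560560201655603201201320101012322,
  0x51605602015606260556056020126056560156026056560165601201560560260556056020120120,
  0x60120126056560165601260565601656012016560165601260565601656012012016516056026056,
  0x65160260565651606201651602012605651606516026056516065601201656016560126056560165,
  0x20160565160651602605665160260565160651602016516060651606025651606516020120165160,
  0x66406261062461406206101446114040056516060626256516060625651606516020165651606201,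
  0x40214046120566406261062014464062140640214005646140626100136124446140621406214005,
  0x26056516065160651602605651606560120120120120120166406261062461406402061624461406,
  0x01651606516026056516065160201260566516026056516065160201651606651602605665160201,
  0x06516020120126056516065160260565160626056516065160201656516065160201201656651602,
  0x60260565160665160602565160651602012012016516062605651606201665160260565160656516,
  0x05651606516020126055651510656510105252626055651510656510105560025252620165160651,
  0x21402140205525651052605565105201651602605565106055651001525265601201651606516026,
  0x26106461404614026102464064021404461640214020612012464614021404464064021404461461,
  0x21404446140461402140446140461402140214020566640640261025146140461402610646146140,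
  0x26102464064021404640640214020566406402610664062610201201244640640214046406402140,
  0x44614614021404461404612140214020566664026102461404664021402061664064026106640640,
  0x61402140446140461402140205646140461402610646140461402610201244614046640214021404,
  0x64046126106461640261024640640214046406402140205664064026100566406261002124461404,
  0x16664046126102461404640640214020566640640261020166640640261024614046640214020616,
  0x60210201666402610664064026102464064021404640461402140205664064026106640461261020,
  0x65105260556510520165160260556510526055651052016516020165160651602516461265160651,
  0x02016516062516651606210625146146640214026516062516066640261021026464614021402055,
  0x60165160251665601651602102605565105260556510520156026055651056020165601651602516,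
  0x565105602605565105201560560260556062012605565105260556510520165120156062605]

theorem c13_r2e : checkE 288 32 17 21
    ⟨200, 300, 319, 200, 300, 319, 2, 0, 3⟩
    (items 9 8 8 (comb [((sb d13.L d13.e), d13.Z), (d13.e, d13.A)]) [uv]
    [(3702798680064, uv)])
    [24, 0, 218, 218] (joinC k13_r2e) = true := by
  decide +kernel

end Pool.Agent.DVX
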