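import Pool.Agent.DVX.Z13

set_option autoImplicit false

/-!
Boxes of the certificate for 13 points: r3m, r3x, r3l, r3y.
-/

namespace Pool.Agent.DVX

open Pool.Agent.BPK Pool.Agent.SDL

/-- The tree. -/
def k13_r3m : List ℕ := [
  0x888680162612180804815828210]

theorem c13_r3m : checkE 370 32 10 10
    ⟨200, 300, 319, 200, 300, 319, 200, 300, 319⟩
    (items 9 9 9 (comb [((sb (sb (sb d13.L2 d13.e) d13.f) d13.g), d13.Z), ((sb (Ex.add d13.e
      d13.f) d13.g), d13.A), ((sb (Ex.add d13.e d13.g) d13.f), d13.B), ((sb (Ex.add d13.f d13.g)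
      d13.e), d13.D)]) [uv, vt, (sb (Ex.add d13.f d13.g) d13.e), (sb (sb (sb d13.L2 d13.e) d13.f)
      d13.g)]
    [])
    [28, 0, 0, 9, 9, 279] (joinC k13_r3m) = true := by
  decide +kernel

/-- The tree. -/
def k13_r3x : List ℕ := [
  0x80801481850107778007808017778010272174040872818080777817210740878072210210210102,
  0x81808001777780078080177780102102721740404087281808077400780801777801022887228181,
  0x08058210144811404040405825050102107777778007808017778010207780078080177780102872,
  0x48108780280177780102102878128180807872078080177780102287281818180808018872281818,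
  0x28188501025825150505050145151077780800780808017787802012174040408781281808010777,
  0x77800120781807780128017778178180077780102102110274040404088515014515107808077810,
  0x80885150085150501107777808077801201077877800210877801281885010012177777780800817,
  0x7777818018888851100001781]

theorem c13_r3x : checkE 357 32 10 16
    ⟨200, 300, 319, 200, 300, 319, 200, 300, 319⟩
    (items 9 9 8 (comb [((sb (sb d13.L d13.e) d13.f), d13.Z), (d13.e, d13.B), (d13.f, d13.D)])
      [uv, (sb (Ex.add d13.e d13.f) d13.g), (sb (sb d13.L d13.e) d13.f)]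
    [(6732361236, (sb (Ex.add d13.e d13.f) d13.g))])
    [28, 0, 9, 8, 269, 269] (joinC k13_r3x) = true := by
  decide +kernel

/-- The tree. -/
def k13_r3l : List ℕ := [
  0x8880887107170228871072717170702]

theorem c13_r3l : checkE 356 32 10 9
    ⟨200, 300, 319, 200, 300, 319, 200, 300, 319⟩
    (items 9 9 8 (comb [((sb (Ex.add d13.e d13.f) d13.L), d13.A), ((sb d13.L d13.f), d13.B), ((sb
      d13.L d13.e), d13.D)]) [uv, (sb (Ex.add d13.e d13.f) d13.L), (sb (sb (sb d13.L2 d13.e)
      d13.f) d13.g)]
    [(4207725772, (sb (sb (sb d13.L2 d13.e) d13.f) d13.g))])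
    [28, 0, 8, 9, 269, 268] (joinC k13_r3l) = true := by
  decide +kernel

/-- The tree. -/
def k13_r3y : List ℕ := [
  0x461665051106515050621]

theorem c13_r3y : checkE 344 32 2 6
    ⟨200, 300, 319, 200, 300, 319, 200, 300, 319⟩
    (items 9 8 8 (comb [(d13.e, d13.B), ((sb d13.L d13.e), d13.D)]) [(sb (sb d13.L d13.e) d13.f)]
    [(5049270927, (sb (sb d13.L d13.e) d13.f))])
    [20, 0, 250, 249] (joinC k13_r3y) = true := by
  decide +kernel

end Pool.Agent.DVX
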