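import Pool.Agent.DVX.Z13

set_option autoImplicit false

/-!
Boxes of the certificate for 13 points: r3t.
-/

namespace Pool.Agent.DVX

open Pool.Agent.BPK Pool.Agent.SDL

/-- The tree. -/
def k13_r3t : List ℕ := [
  0x56520021606651602565152015166521606060651605251102246240406665602606406201120120,
  0x60105210556525151002511202444444462211114014040406406664062016665121606056510605,
  0x65216060600165601526651160606005565151001266665121260015652515106651602556510065,
  0x65651016025565100656010555651000215166651216060652605560520210216665160605605126,
  0x51260555652510006560155651002015656510152510205251166665211606056060515560021606,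
  0x51216002165601606565102516651605651021025656560102556525100152012556525251510066,
  0x66656052652606060600264001560605655600202646240620011266651160605655565200010666,
  0x446406640406201114446240140140046664066406201011244444444622111140140140400]

theorem c13_r3t : checkE 357 32 1 17
    ⟨200, 300, 319, 200, 300, 319, 200, 300, 319⟩
    (items 9 9 8 (comb [((sb d13.L d13.e), d13.Z), (d13.f, d13.A), ((sb d13.e d13.f), d13.B)])
      [(sb (sb d13.e d13.f) d13.g)]
    [(5049270927, (sb (sb d13.e d13.f) d13.g))])
    [19, 0, 260, 259] (joinC k13_r3t) = true := by
  decide +kernel

end Pool.Agent.DVX
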