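import Pool.Agent.DVX.Z14

set_option autoImplicit false

/-!
Boxes of the certificate for 14 points: r0z.
-/

namespace Pool.Agent.DVX

open Pool.Agent.BPK Pool.Agent.SDL

/-- The tree. -/
def k14_r0z : List ℕ := [
  0x40632106631063031031303223226621662632106163102563025151515132144611404040310210,
  0x46464663221402140211140404064051405151662466214040400666051066610661600216666116,
  0x22100006666320006116323020066260126606210265660251510515166266216060606060212144,
  0x40066066666632321032210011022256251666066601006666266210266602166060662666666663,
  0x6666121640406606662166261021066160661661066166102661666]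

theorem c14_r0z : checkE 139 32 26 21
    ⟨2, 0, 3, 2, 0, 3, 2, 0, 3⟩
    (items 7 7 7 d14.Z [uv, vt]
    [])
    [8, 0, 0, 103] (joinC k14_r0z) = true := by
  decide +kernel

end Pool.Agent.DVX
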