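import Pool.Agent.DVX.Z14

set_option autoImplicit false

/-!
Boxes of the certificate for 14 points: r0a.
-/

namespace Pool.Agent.DVX

open Pool.Agent.BPK Pool.Agent.SDL

/-- The tree. -/
def k14_r0a : List ℕ := [
  0x16312663006303123232303031130311550303121551551055025153105231246321404040310102,
  0x50551154051025555025560055560126055610626160606012606011606606663100663030130230,
  0x62162105561062616005616160606060162312310001555102055021144445552211114040404055,
  0x31155556100555612056056160602160125560056216163126630263231301015561255556120055,
  0x13115555532611002555562162105556025606060125560602562606060162106215603231606031,
  0x50500255205505520155010255501550555555555555621005561602015560061211100020555526,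
  0x65625555666012222056555622202550155556222251010550155556612225553225150251515150,
  0x51055555555555562211110000055556220155622011540405505515310622102221055505551020,
  0x12663131230056266300301631303032312303111214514040663130210210551555551025551055,
  0x01525252105505502550521552405105550556111156105605605606066310666300066321301302,
  0x16060603132100120120114451140404040555502555005550255102155521014514055055616310,
  0x56006261025556120561561600621562616006213125556062215561161606310663003131225323,
  0x10055555556131221000561560215555556221110561531626023115555561100055561056060215,
  0x50515021025550555512020631603156106252525515552055155555611100555555560561602221,
  0x555555052101055525521154040551505]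

theorem c14_r0a : checkE 139 32 26 24
    ⟨2, 0, 3, 2, 0, 3, 2, 0, 3⟩
    (items 7 7 7 d14.A [uv]
    [(83751862272, gmE)])
    [8, 0, 103, 103] (joinC k14_r0a) = true := by
  decide +kernel

end Pool.Agent.DVX
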