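import Pool.Agent.DVX.Z14

set_option autoImplicit false

/-!
Boxes of the certificate for 14 points: r1a, r1e, r1d.
-/

namespace Pool.Agent.DVX

open Pool.Agent.BPK Pool.Agent.SDL

/-- The tree. -/
def k14_r1a : List ℕ := [
  0x41532454124153254152140214022240404454242135240423542352140211404040144144122121,
  0x4414441421243403152424250133523103504031502314531424040133400352403140214021444]

theorem c14_r1a : checkE 191 32 6 16
    ⟨250, 375, 434, 2, 0, 3, 2, 0, 3⟩
    (items 7 7 7 d14.A []
    [(83751862272, gmE)])
    [0, 127, 127] (joinC k14_r1a) = true := by
  decide +kernel

/-- The tree. -/
def k14_r1e : List ℕ := [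
  0x02245405145421400424213525425104235423521542021545125142014445111400404440221121,
  0x15414052415252045412414053254152150505410214524140405540124540241404004102224444,
  0x40223101031540314540140242354042405401214051021434242404010214444041404155532501,
  0x42403542231401023143424035055424020142133334200034514251254513104434242112533451,
  0x22021122445114445142114040035031525454010314512540242014244023353100350540231540,
  0x441404424014440440114440424404440152441440540540404115240135400]

theorem c14_r1e : checkE 213 32 6 18
    ⟨250, 375, 434, 2, 0, 3, 2, 0, 3⟩
    (items 8 7 7 (comb [((sb d14.L d14.e), d14.Z), (d14.e, d14.A)]) []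
    [(4941359874048, gmE)])
    [0, 144, 144] (joinC k14_r1e) = true := by
  decide +kernel

/-- The tree. -/
def k14_r1d : List ℕ := [
  0x40002222445424214035250504233500542352150402114510441014442244041445253210212121,
  0x20445114040540124031420102144441545412411403535050115325415215050401351415041505,
  0x10120231453142504013350031352505033531001214405534451125100315451400512535431312,
  0x52401224041135555410101344152102210022434031524214044223352310350403143501454451,
  0x10002144411434545322011244134523244522532211243514103244144445223224014455415204,
  0x444444442]

theorem c14_r1d : checkE 213 32 6 18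
    ⟨250, 375, 434, 2, 0, 3, 2, 0, 3⟩
    (items 8 7 7 (comb [(d14.e, d14.A), ((sb d14.L d14.e), d14.D)]) []
    [(4941359874048, gmE)])
    [0, 144, 144] (joinC k14_r1d) = true := by
  decide +kernel

end Pool.Agent.DVX
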