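import Pool.Agent.DVX.Z14

set_option autoImplicit false

/-!
Boxes of the certificate for 14 points: r2a, r2t, r2x, r2s, r2y, r2l.
-/

namespace Pool.Agent.DVX

open Pool.Agent.BPK Pool.Agent.SDL

/-- The tree. -/
def k14_r2a : List ℕ := [
  0x44242]

theorem c14_r2a : checkE 243 32 0 3
    ⟨250, 375, 434, 250, 375, 434, 2, 0, 3⟩
    (items 7 7 7 d14.A []
    [])
    [8, 171] (joinC k14_r2a) = true := by
  decide +kernel

/-- The tree. -/
def k14_r2t : List ℕ := [
  0x12364005651600555651060005255532215555532212150500355335032032532500113202111322,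
  0x51026565105560052210266205565100555560052260552102160055255651055560022600055011,
  0x12101055266256565101056565560055600556002210521021046621404005525651056515105651,
  0x21025165605251605556002565102605555600055560002212105164066406640610105256510605,
  0x5651510526565651052101055052146140565105251656052105655]

theorem c14_r2t : checkE 278 32 15 17
    ⟨250, 375, 434, 250, 375, 434, 2, 0, 3⟩
    (items 8 8 7 (comb [((sb d14.L d14.e), d14.Z), (d14.f, d14.A), ((sb d14.e d14.f), d14.B)])
      [uv]
    [(12353399685120, uv)])
    [23, 0, 214, 214] (joinC k14_r2t) = true := by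
  decide +kernel

/-- The tree. -/
def k14_r2x : List ℕ := [
  0x16003266322113363211404040663632601640610221033333603232103406336103221032102322,
  0x56061606661025545611005606160146161023336]

theorem c14_r2x : checkE 278 32 15 13
    ⟨250, 375, 434, 250, 375, 434, 2, 0, 3⟩
    (items 8 8 7 (comb [((sb (sb d14.L d14.e) d14.f), d14.Z), (d14.e, d14.B), (d14.f, d14.D)])
      [uv, (sb (sb d14.L d14.e) d14.f)]
    [])
    [23, 0, 8, 213] (joinC k14_r2x) = true := by
  decide +kernel

/-- The tree. -/
def k14_r2s : List ℕ := [
  0x442440440224444343212000322]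

theorem c14_r2s : checkE 265 32 0 9
    ⟨250, 375, 434, 250, 375, 434, 2, 0, 3⟩
    (items 8 7 7 (comb [(d14.e, d14.A), ((sb d14.L d14.e), d14.D)]) []
    [])
    [8, 188] (joinC k14_r2s) = true := by
  decide +kernel

/-- The tree. -/
def k14_r2y : List ℕ := [
  0x02333616510320665103253250011336160321360603253250105325150505010333515032102322,
  0x01444464602110046166510066506206506250150114446046021064612616014614612616051051,
  0x64612616046146026160206151006665165120650650250106650516505120651506505125015015,
  0x461446106666500622625011461446102]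

theorem c14_r2y : checkE 265 32 7 14
    ⟨250, 375, 434, 250, 375, 434, 2, 0, 3⟩
    (items 8 7 7 (comb [(d14.e, d14.B), ((sb d14.L d14.e), d14.D)]) [(sb (sb d14.L d14.e) d14.f)]
    [(237185273954, (sb (sb d14.L d14.e) d14.f))])
    [15, 0, 194, 193] (joinC k14_r2y) = true := by
  decide +kernel

/-- The tree. -/
def k14_r2l : List ℕ := [
  0x02661665010226616650102236166501033335001134035150501033351501022333505010322322,
  0x6626666166501]

theorem c14_r2l : checkE 278 32 15 11
    ⟨250, 375, 434, 250, 375, 434, 2, 0, 3⟩
    (items 8 8 7 (comb [((sb (Ex.add d14.e d14.f) d14.L), d14.A), ((sb d14.L d14.f), d14.B), ((sb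
      d14.L d14.e), d14.D)]) [uv, (sb (Ex.add d14.e d14.f) d14.L)]
    [])
    [23, 0, 8, 214] (joinC k14_r2l) = true := by
  decide +kernel

end Pool.Agent.DVX
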