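import Pool.Agent.DVX.Z14

set_option autoImplicit false

/-!
Boxes of the certificate for 14 points: r2e.
-/

namespace Pool.Agent.DVX

open Pool.Agent.BPK Pool.Agent.SDL

/-- The tree. -/
def k14_r2e : List ℕ := [
  0x60556056026055605602015606260556056020120120165655656056021056020132012010101322,
  0x05651665602106516560560210260556056026055605602015605602605560560201201651605602,
  0x06262324610565160626056565160620162016062565160651602605651606516020165560620126,
  0x60260565651605602015605602605560560201201201201201013333614032114040056514614061,
  0x51602605651606516020126056516065160260565651606516020165651606516020120165160651,
  0x16020126056651602516665160210651606516026056516065160201201656516065160201651606,
  0x20165160201651606516026056516065665160201201260565160651602605665160201656516065,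
  0x51016055605160556051010152525201665160251666560121020165160626056516062605651606,
  0x16021025166516066651602251602102605560605560016055606055600101525252605560605560,
  0x01520162605560526055605201526055605260556052015201620165160651606516025166516065,
  0x56651606516062220121024646121404461640214020552560526055605201526055605260556052,
  0x20616640626106246140620612012552146404612140446640214046406214021402656516062016,
  0x66406261001622446140464064021402140446406214062140205666640610664061022264046140,
  0x61404614026102466402140446140461402140206564614614026100216640626104461406214005,
  0x51602516665160210651606260565160651602012012016666402610264046140206166461261064,
  0x52015260556052605560520152016516020165160651602605651606516020165651606201260566,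
  0x51602012646640214020556052605560520162605560526055605201520165160260556052605560,
  0x60556052016201665160251666516021020165651606201626640205651606062565160651602016,
  0x60556052605560520156020165160651602516651606516021026055605260556052016260556052,
  0x46140214044614046140214021404464062140621402140214021400555225605260556052016512,
  0x02016464062140626640626106210201201012444614640640214021404446146461214021404446,
  0x40261064614046140261024640461402140446140461402140205664046140261064614046140261,
  0x61406402610210664032610244461404614021404461404614021402140446140621402056461461,
  0x20164614046140261064614064026102514461404614021404461406402140264614046140261064,
  0x02055266666402610264046640214020566664026102012461404640461402140205666461402610,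
  0x61021062102446140464046640214021402140444461404614021404640621402140464032140214,
  0x10324464064021404614021403266406402615106246406402140464062140266406402610664062,
  0x40464046640214021402056666640261025164046640214026666402610210201646140340266215,
  0x03261032102104446140464046140214021404446140321403214021400552666404614026102461,
  0x51032446140461402140326656646151000622246140464064021402666406402610210634032664,
  0x55605201656012016516065160251665160651602102106516406402651606210210016640640261,
  0x60556062605560620165601201651606260565160620125165606260556062016560126055605260,
  0x01651602016516062605651606201210666402610251461404664021402560626055606201656012,
  0x55605602605560560201656012016516025165605602605560560201651602605560560260556062,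
  0x60556056020165160201651602106210446140466402140214005560560260556056020165601260,
  0x62016260565601626056560162016516020162516656015602605656015602016516026056515602,
  0x51606260565160620162605656016260565601620162010162625146140461402656016260565601,
  0x651656062106056516062605651606201015606026056]

theorem c14_r2e : checkE 265 32 15 21
    ⟨250, 375, 434, 250, 375, 434, 2, 0, 3⟩
    (items 8 7 7 (comb [((sb d14.L d14.e), d14.Z), (d14.e, d14.A)]) [uv]
    [(44472238866432, uv)])
    [23, 0, 203, 203] (joinC k14_r2e) = true := by
  decide +kernel

end Pool.Agent.DVX
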