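import Pool.Agent.DVX.Z14

set_option autoImplicit false

/-!
Boxes of the certificate for 14 points: r3m, r3l, r3y.
-/

namespace Pool.Agent.DVX

open Pool.Agent.BPK Pool.Agent.SDL

/-- The tree. -/
def k14_r3m : List ℕ := [
  0x66686261000868610201666686261000010288868610256262188668002102148140582518210021,
  0x80851666861000218856211808080800566808002515151166668626161061000868018068610280,
  0x08680611840408102868061184040810868610148140810222224481140404008851405105188612,
  0x88888611808084081088611808408102288668001184081]

theorem c14_r3m : checkE 343 32 8 14
    ⟨250, 375, 434, 250, 375, 434, 250, 375, 434⟩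
    (items 8 8 8 (comb [((sb (sb (sb d14.L2 d14.e) d14.f) d14.g), d14.Z), ((sb (Ex.add d14.e
      d14.f) d14.g), d14.A), ((sb (Ex.add d14.e d14.g) d14.f), d14.B), ((sb (Ex.add d14.f d14.g)
      d14.e), d14.D)]) [uv, vt, (sb (Ex.add d14.f d14.g) d14.e), (sb (sb (sb d14.L2 d14.e) d14.f)
      d14.g)]
    [])
    [28, 0, 0, 9, 9, 257] (joinC k14_r3m) = true := by
  decide +kernel

/-- The tree. -/
def k14_r3l : List ℕ := [
  0x08668700128870171701086870017701218404088702727171707010871771027124717102771702,
  0x08727170701701888870108717070108871700870701287171717070707007127170166886671100,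
  0x01022888887171012088888710000888701087271028871072717008727170701088870128727170,
  0x71701047108727171707070110688888700870701087170701011840884040088700870701701717,
  0x07271700887107271707017011066688868711000888711087170701001164088688711100840872,
  0x06408888844711000888711084071021044711404040400888888711000088871108870271028871,
  0x07170707070271717170700214471140404040710268668888888701000088870108870271021110,
  0x17070707001871707170707070012887072087072701871717070707027171707018872087270187,
  0x88707208707270171700188888717001088871700187071707070700108888717001088871701087,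
  0x01270711888871008707270087072707012707171068888720870727011008888707208707270110,
  0x10087071700870717070120188887100087108871087087070170128887210872717008717170707,
  0x70700118404087071707170707070102210688888872110000888888721100088870087070128887,
  0x27014717101028688872087270111084084710872701717010888887170010888717001870717070,
  0x88808808701701184040710888888688871101000840884710087]

theorem c14_r3l : checkE 330 32 8 20
    ⟨250, 375, 434, 250, 375, 434, 250, 375, 434⟩
    (items 8 8 7 (comb [((sb (Ex.add d14.e d14.f) d14.L), d14.A), ((sb d14.L d14.f), d14.B), ((sb
      d14.L d14.e), d14.D)]) [uv, (sb (Ex.add d14.e d14.f) d14.L), (sb (sb (sb d14.L2 d14.e)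
      d14.f) d14.g)]
    [(98827197480, (sb (sb (sb d14.L2 d14.e) d14.f) d14.g))])
    [28, 0, 8, 9, 248, 248] (joinC k14_r3l) = true := by
  decide +kernel

/-- The tree. -/
def k14_r3y : List ℕ := [
  0x61100044446110044646021064612616006665105206650152501501066650051051506210565021,
  0x44444]

theorem c14_r3y : checkE 317 32 0 12
    ⟨250, 375, 434, 250, 375, 434, 250, 375, 434⟩
    (items 8 7 7 (comb [(d14.e, d14.B), ((sb d14.L d14.e), d14.D)]) [(sb (sb d14.L d14.e) d14.f)]
    [(98827197480, (sb (sb d14.L d14.e) d14.f))])
    [20, 0, 228, 228] (joinC k14_r3y) = true := by
  decide +kernel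

end Pool.Agent.DVX
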