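import Pool.Agent.SDL.AffEx

set_option autoImplicit false

/-!
The affine certificate for 14 points.
-/

namespace Pool.Agent.DVX

open Pool.Agent.SDL

/-- The certificate for 14 points. -/
def crt14 : Cert :=
    ⟨[[ ⟨1, -1, [12926, 43454, -39786, -118937, 21457, 143210, -17788, -25625], [-5645, -20159,
    -1667, 33276, 66714, -31632, -46186, -13696], 0, 0⟩, ⟨1, -1, [10754, 40373, -74718, -45733,
    32085, -5748, 64471, 10367], [-5439, -24774, 24442, 16961, 25260, 32232, -68365, -22549],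
    0, 0⟩, ⟨1, -1, [138, 45, -1782, -9839, 6055, 27142, -3930, -17240], [174, -2403, -3703,
    26106, 10259, -58710, -7793, 34807], 0, 0⟩, ⟨1, -1, [5038, -26001, -24254, 48258, 27122,
    16429, -12290, -36477], [-3096, 14468, -10172, 23646, -47563, -110789, 85484, 57481], 0,
    0⟩, ⟨1, -1, [-3102, 5816, 20855, 11782, -30966, -55620, 11866, 38655], [191, -28164, 2419,
    176078, -14070, -314418, 14100, 166469], 0, 0⟩, ⟨0, 1, [8306, 35798, -73538, -45938, 82073,
    -7174, 10461, 27948], [], 0, 0⟩, ⟨0, 1, [-12021, -55903, 5836, 127962, 75460, -109852,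
    -37034, 12554], [], 0, 0⟩, ⟨0, 1, [807, -20431, -34659, 79178, 96898, -97114, -64906,
    42183], [], 0, 0⟩, ⟨0, 1, [11490, -11646, -41487, -21567, -17829, 97068, 53496, -66065],
    [], 0, 0⟩], [ ⟨1, -1, [-11216, -1410, -76748, -2209, 48768, 17938, 64054], [15308, -2621,
    5878, 38448, -44243, -75123, 20338], 0, 0⟩, ⟨1, -1, [3100, -70306, -327, 64189, -49066,
    59345, 35884], [2731, 31347, -28916, 40989, 13396, -105584, 4198], 0, 0⟩, ⟨1, -1, [13126,
    48856, 1781, -101003, -133772, 54539, 109006], [-6913, -35870, 14992, 105523, 504, -83600,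
    -1607], 0, 0⟩, ⟨1, -1, [-4662, 19507, 67264, -57514, -153881, 45350, 100897], [2884, 16499,
    60789, -78384, -171803, 61763, 106128], 0, 0⟩, ⟨0, 1, [1695, -46996, 114005, 141490,
    -139262, -83452, 35728], [], 0, 0⟩, ⟨0, 1, [-15727, 6855, -4141, 40138, 88871, -40463,
    -73064], [], 0, 0⟩, ⟨0, 1, [-16561, -82162, -39506, 52562, 92399, 58356, -33788], [], 0,
    0⟩], [ ⟨1, -1, [22524, 38272, 35143, -107419, -63748, 73819], [-8638, -203, 39477, -28852,
    -55167, 31795], 0, 0⟩, ⟨1, -1, [-7938, -44727, 74326, 64830, -8051, -7255], [-1195, 5881,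
    43634, 4652, -96794, -13938], 0, 0⟩, ⟨1, -1, [9480, -7663, -42073, -54041, 35896, 73795],
    [-2120, -10777, -11908, 72785, 9368, -72268], 0, 0⟩, ⟨0, 1, [-13738, -61624, -11976,
    171525, 65389, -129395], [], 0, 0⟩, ⟨0, 1, [9070, -7916, -30970, -43940, 25995, 61366], [],
    0, 0⟩], [ ⟨1, -1, [856, 38739, -19820, -17981, 12183], [2155, 8886, -31089, -26026, 43824],
    0, 0⟩, ⟨1, -1, [24708, 37432, 8635, -48074, 2487], [-5230, 6276, -922, -23947, 24102], 0,
    0⟩, ⟨0, 1, [15271, 36706, 44754, -14671, -9502], [], 0, 0⟩, ⟨0, 1, [578, 16077, -24026,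
    -7256, 14990], [], 0, 0⟩], [ ⟨1, -1, [10694, 31384, -4173, -18004], [-3914, -1555, 39799,
    -5602], 0, 0⟩, ⟨1, -1, [-3855, -5559, 132, 22068], [-44, 1756, -2245, -15788], 0, 0⟩, ⟨0,
    1, [3517, 36331, -15425, -4905], [], 0, 0⟩, ⟨0, 1, [-13565, -35380, 5411, 46750], [], 0,
    0⟩], [ ⟨1, -1, [9463, 10459, -27578], [-2071, 15020, 17980], 0, 0⟩, ⟨0, 1, [14135, 19467,
    -36952], [], 0, 0⟩], [], [ ⟨0, 1, [2845], [], 0, 0⟩]], [[], [], [], [], [], [], [], [], [],
    [], [], [], []], [2138029191, 7521015307, 12915038849, -37761522057, -50994475116,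
    50904549096, 46047296049, -15980983812], [-736317319, -1040161357, 715908642, 15330329370,
    6579533741, -29935319377, -11468180772, 13542696012], [-328653222, -1244440623, -250921118,
    3388089955, 904004957, -2754565363, -1248592575, -271927217], 0, 0⟩

end Pool.Agent.DVX
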