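import Pool.Agent.DVX.Fields
import Pool.Agent.DVX.B13_1
import Pool.Agent.DVX.B13_2
import Pool.Agent.DVX.B13_3
import Pool.Agent.DVX.B13_4
import Pool.Agent.DVX.B13_5
import Pool.Agent.DVX.B13_6
import Pool.Agent.DVX.B13_7
import Pool.Agent.DVX.P13
import Pool.Agent.SDL.Targets3

set_option autoImplicit false

/-!
# D13: the total lift of 13 points
-/

namespace Pool.Agent.DVX

open Pool.Agent.BPK Pool.Agent.SDL

theorem cks13 : Cks d13 where
  r0z := ⟨_, _, _, _, _, _, _, _, _, _, c13_r0z, by norm_num, by norm_num, by simp⟩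
  r0a := ⟨_, _, _, _, _, _, _, _, _, _, c13_r0a, by norm_num, by norm_num, by simp⟩
  r1a := ⟨_, _, _, _, _, _, _, _, _, _, c13_r1a, by norm_num, by norm_num, by simp⟩
  r1e := ⟨_, _, _, _, _, _, _, _, _, _, c13_r1e, by norm_num, by norm_num, by simp⟩
  r1d := ⟨_, _, _, _, _, _, _, _, _, _, c13_r1d, by norm_num, by norm_num, by simp⟩
  r2a := ⟨_, _, _, _, _, _, _, _, _, _, c13_r2a, by norm_num, by norm_num, by simp⟩
  r2e := ⟨_, _, _, _, _, _, _, _, _, _, c13_r2e, by norm_num, by norm_num, by simp⟩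
  r2t := ⟨_, _, _, _, _, _, _, _, _, _, c13_r2t, by norm_num, by norm_num, by simp⟩
  r2x := ⟨_, _, _, _, _, _, _, _, _, _, c13_r2x, by norm_num, by norm_num, by simp⟩
  r2s := ⟨_, _, _, _, _, _, _, _, _, _, c13_r2s, by norm_num, by norm_num, by simp⟩
  r2y := ⟨_, _, _, _, _, _, _, _, _, _, c13_r2y, by norm_num, by norm_num, by simp⟩
  r2l := ⟨_, _, _, _, _, _, _, _, _, _, c13_r2l, by norm_num, by norm_num, by simp⟩
  r3m := ⟨_, _, _, _, _, _, _, _, _, _, c13_r3m, by norm_num, by norm_num, by simp⟩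
  r3x := ⟨_, _, _, _, _, _, _, _, _, _, c13_r3x, by norm_num, by norm_num, by simp⟩
  r3t := ⟨_, _, _, _, _, _, _, _, _, _, c13_r3t, by norm_num, by norm_num, by simp⟩
  r3l := ⟨_, _, _, _, _, _, _, _, _, _, c13_r3l, by norm_num, by norm_num, by simp⟩
  r3y := ⟨_, _, _, _, _, _, _, _, _, _, c13_r3y, by norm_num, by norm_num, by simp⟩

theorem crt13_ok : crt13.ok 13 = true := by
  decide +kernel

theorem ok13 : d13.OK crt13 13 (19 / 100) where
  q0 := by decide
  hL := by norm_num [d13]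
  hz := poly_eq crt13 13 z13 _ _ _ _ z13_ok
  ha := poly_eq1 crt13 13 a13 _ _ _ _ a13_ok

/-- **The total lift of 13 points.** -/
theorem lift13 {ι : Type} [Fintype ι] (n : ι → Pool.Agent.SDC.E3) (h : ι → ℝ)
    (hN : Fintype.card ι = 13) (H : Pck n h) : 0.19 ≤ ∑ i, (h i - 1) := by
  have hL : (0.19 : ℝ) = 19 / 100 := by norm_num
  rw [hL]
  exact crt13.lift_ge_of_TP 13 (19 / 100) (by norm_num) (by norm_num) crt13_ok
    (TP_of_Fam (fam_of ok13 cks13) (by norm_num))
    (crt13.hP_of (19 / 100) (by norm_num) P13_0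
      (fun u h1 h2 _ => P13_1 u h1 h2) fun u h1 h2 _ => P13_2 u h1 h2) hN H

theorem p_D13 : T_D13 := fun _ _ n h hN H _ => lift13 n h hN H

end Pool.Agent.DVX
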