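import Pool.Agent.DVX.Fields
import Pool.Agent.DVX.B14_1
import Pool.Agent.DVX.B14_2
import Pool.Agent.DVX.B14_3
import Pool.Agent.DVX.B14_4
import Pool.Agent.DVX.B14_5
import Pool.Agent.DVX.B14_6
import Pool.Agent.DVX.B14_7
import Pool.Agent.DVX.B14_8
import Pool.Agent.DVX.P14
import Pool.Agent.SDL.Targets3

set_option autoImplicit false

/-!
# D14: the total lift of 14 points
-/

namespace Pool.Agent.DVX

open Pool.Agent.BPK Pool.Agent.SDL

theorem cks14 : Cks d14 where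
  r0z := ⟨_, _, _, _, _, _, _, _, _, _, c14_r0z, by norm_num, by norm_num, by simp⟩
  r0a := ⟨_, _, _, _, _, _, _, _, _, _, c14_r0a, by norm_num, by norm_num, by simp⟩
  r1a := ⟨_, _, _, _, _, _, _, _, _, _, c14_r1a, by norm_num, by norm_num, by simp⟩
  r1e := ⟨_, _, _, _, _, _, _, _, _, _, c14_r1e, by norm_num, by norm_num, by simp⟩
  r1d := ⟨_, _, _, _, _, _, _, _, _, _, c14_r1d, by norm_num, by norm_num, by simp⟩
  r2a := ⟨_, _, _, _, _, _, _, _, _, _, c14_r2a, by norm_num, by norm_num, by simp⟩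
  r2e := ⟨_, _, _, _, _, _, _, _, _, _, c14_r2e, by norm_num, by norm_num, by simp⟩
  r2t := ⟨_, _, _, _, _, _, _, _, _, _, c14_r2t, by norm_num, by norm_num, by simp⟩
  r2x := ⟨_, _, _, _, _, _, _, _, _, _, c14_r2x, by norm_num, by norm_num, by simp⟩
  r2s := ⟨_, _, _, _, _, _, _, _, _, _, c14_r2s, by norm_num, by norm_num, by simp⟩
  r2y := ⟨_, _, _, _, _, _, _, _, _, _, c14_r2y, by norm_num, by norm_num, by simp⟩
  r2l := ⟨_, _, _, _, _, _, _, _, _, _, c14_r2l, by norm_num, by norm_num, by simp⟩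
  r3m := ⟨_, _, _, _, _, _, _, _, _, _, c14_r3m, by norm_num, by norm_num, by simp⟩
  r3x := ⟨_, _, _, _, _, _, _, _, _, _, c14_r3x, by norm_num, by norm_num, by simp⟩
  r3t := ⟨_, _, _, _, _, _, _, _, _, _, c14_r3t, by norm_num, by norm_num, by simp⟩
  r3l := ⟨_, _, _, _, _, _, _, _, _, _, c14_r3l, by norm_num, by norm_num, by simp⟩
  r3y := ⟨_, _, _, _, _, _, _, _, _, _, c14_r3y, by norm_num, by norm_num, by simp⟩

theorem crt14_ok : crt14.ok 14 = true := by
  decide +kernel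

theorem ok14 : d14.OK crt14 14 (59 / 125) where
  q0 := by decide
  hL := by norm_num [d14]
  hz := poly_eq crt14 14 z14 _ _ _ _ z14_ok
  ha := poly_eq1 crt14 14 a14 _ _ _ _ a14_ok

/-- **The total lift of 14 points.** -/
theorem lift14 {ι : Type} [Fintype ι] (n : ι → Pool.Agent.SDC.E3) (h : ι → ℝ)
    (hN : Fintype.card ι = 14) (H : Pck n h) : 0.472 ≤ ∑ i, (h i - 1) := by
  have hL : (0.472 : ℝ) = 59 / 125 := by norm_num
  rw [hL]
  exact crt14.lift_ge_of_TP 14 (59 / 125) (by norm_num) (by norm_num) crt14_ok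
    (TP_of_Fam (fam_of ok14 cks14) (by norm_num))
    (crt14.hP_of (59 / 125) (by norm_num) P14_0
      (fun u h1 h2 _ => P14_1 u h1 h2) fun u h1 h2 _ => P14_2 u h1 h2) hN H

theorem p_D14 : T_D14 := fun _ _ n h hN H _ => lift14 n h hN H

end Pool.Agent.DVX
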