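import Pool.Agent.DVX.Glue

set_option autoImplicit false

/-!
# Fields: the inequalities from the checks
-/

namespace Pool.Agent.DVX

open Pool.Agent.BPK Pool.Agent.SDL

theorem neg_of' {W0 W1 e fuel : ℕ} {bx : Box} {n1 n2 n3 : ℕ} {P : Ex} {cs : List Ex}
    {ls : List (ℕ × Ex)} {ss : List ℕ} {cert : ℕ}
    (h : checkE W0 W1 e fuel bx (items n1 n2 n3 P cs ls) ss cert = true) (hW0 : 2 ≤ W0)
    (hW1 : 2 ≤ W1) (hq : 0 < bx.q1 ∧ 0 < bx.q2 ∧ 0 < bx.q3)
    (hls : ∀ l ∈ ls, l.2 = gmE ∨ l.2 ∈ cs) {u v t : ℝ}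
    (hb : bx.In (u + 1) (v + 1) (t + 1)) (hg : Gm u v t) (hc : ∀ c ∈ cs, 0 ≤ ev u v t c) :
    ev u v t P < 0 := by
  refine neg_of h hW0 hW1 hq hb hg hc fun l hl => ?_
  rcases hls l hl with h1 | h1
  · rw [h1, ev_gmE]
    exact hg
  · exact hc _ h1

theorem scale {q x y : ℝ} (hq : 0 < q) (h : y < 0) (e : q * x = y) : x < 0 := by
  by_contra hc
  push Not at hc
  have := mul_nonneg hq.le hc
  linarith

section

variable (d : Dt) (u v t : ℝ)

theorem evZ : ev u v t d.Z = P3 d.z u v t := by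
  rw [Dt.Z, ev_pol, ev_xu, ev_xv, ev_xt]

theorem evA : ev u v t d.A = P3 d.a u v t := by
  rw [Dt.A, ev_pol, ev_xu, ev_xv, ev_xt]

theorem evB : ev u v t d.B = P3 d.a u t v := by
  rw [Dt.B, ev_pol, ev_xu, ev_xv, ev_xt]

theorem evD : ev u v t d.D = P3 d.a v t u := by
  rw [Dt.D, ev_pol, ev_xu, ev_xv, ev_xt]

theorem eve : ev u v t d.e = d.q * (2 * u - 1) := by
  rw [Dt.e, ev_sE, ev_xu]

theorem evf : ev u v t d.f = d.q * (2 * v - 1) := by
  rw [Dt.f, ev_sE, ev_xv]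

theorem evg : ev u v t d.g = d.q * (2 * t - 1) := by
  rw [Dt.g, ev_sE, ev_xt]

theorem evL : ev u v t d.L = d.p := by
  rw [Dt.L, ev_c]

theorem evL2 : ev u v t d.L2 = 2 * d.p := by
  rw [Dt.L2, ev_c]
  push_cast
  ring

end

/-- The hypotheses on the data. -/
structure Dt.OK (d : Dt) (C : Cert) (N : ℕ) (L : ℝ) : Prop where
  q0 : 0 < d.q
  hL : (d.p : ℝ) = L * d.q
  hz : ∀ u v t, C.Z0 N u v t = P3 d.z u v t
  ha : ∀ u v t, C.Z1 N u v t = P3 d.a u v t

/-- The interval of a far side. -/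
def lo3 : ℕ × ℕ × ℕ := (2, 0, 3)

theorem in_lo {x : ℝ} (h : I0 x) :
    ((0 : ℕ) : ℝ) ≤ ((2 : ℕ) : ℝ) * (x + 1) ∧ ((2 : ℕ) : ℝ) * (x + 1) ≤ ((3 : ℕ) : ℝ) := by
  obtain ⟨h1, h2⟩ := h
  push_cast
  constructor <;> linarith

theorem in_hi {x L : ℝ} {p q : ℕ} (hp : (p : ℝ) = L * q) (h : I1 L x) :
    ((3 * q : ℕ) : ℝ) ≤ ((2 * q : ℕ) : ℝ) * (x + 1) ∧
      ((2 * q : ℕ) : ℝ) * (x + 1) ≤ ((3 * q + p : ℕ) : ℝ) := by
  obtain ⟨h1, h2⟩ := h
  have hq : (0 : ℝ) ≤ q := Nat.cast_nonneg _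
  push_cast
  rw [hp]
  constructor <;> nlinarith

/-- Boxes of the four regions. -/
def bx0 : Box := ⟨2, 0, 3, 2, 0, 3, 2, 0, 3⟩
/-- One close side. -/
def bx1 (p q : ℕ) : Box := ⟨2 * q, 3 * q, 3 * q + p, 2, 0, 3, 2, 0, 3⟩
/-- Two close sides. -/
def bx2 (p q : ℕ) : Box := ⟨2 * q, 3 * q, 3 * q + p, 2 * q, 3 * q, 3 * q + p, 2, 0, 3⟩
/-- Three close sides. -/
def bx3 (p q : ℕ) : Box :=
  ⟨2 * q, 3 * q, 3 * q + p, 2 * q, 3 * q, 3 * q + p, 2 * q, 3 * q, 3 * q + p⟩

section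

variable {W0 W1 e fuel n1 n2 n3 cert : ℕ} {ls : List (ℕ × Ex)} {ss : List ℕ} {P : Ex}
  {cs : List Ex} {L : ℝ}

/-- The check for a region. -/
structure Ck (bx : Box) (P : Ex) (cs : List Ex) : Prop where
  ck : ∃ W0 W1 e fuel n1 n2 n3 ls ss cert, checkE W0 W1 e fuel bx (items n1 n2 n3 P cs ls) ss
    cert = true ∧ 2 ≤ W0 ∧ 2 ≤ W1 ∧ ∀ l ∈ ls, l.2 = gmE ∨ l.2 ∈ cs

theorem Ck.neg {bx : Box} (H : Ck bx P cs) (hq : 0 < bx.q1 ∧ 0 < bx.q2 ∧ 0 < bx.q3) {u v t : ℝ}
    (hb : bx.In (u + 1) (v + 1) (t + 1)) (hg : Gm u v t) (hc : ∀ c ∈ cs, 0 ≤ ev u v t c) :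
    ev u v t P < 0 := by
  obtain ⟨W0, W1, e, fuel, n1, n2, n3, ls, ss, cert, h, h1, h2, h3⟩ := H.ck
  exact neg_of' h h1 h2 hq h3 hb hg hc

theorem Ck.neg0 (H : Ck bx0 P cs) {u v t : ℝ} (hu : I0 u) (hv : I0 v) (ht : I0 t)
    (hg : Gm u v t) (hc : ∀ c ∈ cs, 0 ≤ ev u v t c) : ev u v t P < 0 :=
  H.neg ⟨by decide, by decide, by decide⟩ ⟨in_lo hu, in_lo hv, in_lo ht⟩ hg hc

theorem Ck.neg1 {p q : ℕ} (H : Ck (bx1 p q) P cs) (h0 : 0 < q) (hp : (p : ℝ) = L * q)
    {u v t : ℝ} (hu : I1 L u) (hv : I0 v) (ht : I0 t)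
    (hg : Gm u v t) (hc : ∀ c ∈ cs, 0 ≤ ev u v t c) : ev u v t P < 0 :=
  H.neg ⟨Nat.mul_pos two_pos h0, two_pos, two_pos⟩ ⟨in_hi hp hu, in_lo hv, in_lo ht⟩ hg hc

theorem Ck.neg2 {p q : ℕ} (H : Ck (bx2 p q) P cs) (h0 : 0 < q) (hp : (p : ℝ) = L * q)
    {u v t : ℝ} (hu : I1 L u) (hv : I1 L v) (ht : I0 t)
    (hg : Gm u v t) (hc : ∀ c ∈ cs, 0 ≤ ev u v t c) : ev u v t P < 0 :=
  H.neg ⟨Nat.mul_pos two_pos h0, Nat.mul_pos two_pos h0, two_pos⟩
    ⟨in_hi hp hu, in_hi hp hv, in_lo ht⟩ hg hc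

theorem Ck.neg3 {p q : ℕ} (H : Ck (bx3 p q) P cs) (h0 : 0 < q) (hp : (p : ℝ) = L * q)
    {u v t : ℝ} (hu : I1 L u) (hv : I1 L v) (ht : I1 L t)
    (hg : Gm u v t) (hc : ∀ c ∈ cs, 0 ≤ ev u v t c) : ev u v t P < 0 :=
  H.neg ⟨Nat.mul_pos two_pos h0, Nat.mul_pos two_pos h0, Nat.mul_pos two_pos h0⟩
    ⟨in_hi hp hu, in_hi hp hv, in_hi hp ht⟩ hg hc

end

/-- All checks. -/
structure Cks (d : Dt) : Prop where
  r0z : Ck bx0 d.Z [uv, vt]
  r0a : Ck bx0 d.A [uv]
  r1a : Ck (bx1 d.p d.q) d.A []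
  r1e : Ck (bx1 d.p d.q) (comb [((sb d.L d.e), d.Z), (d.e, d.A)]) []
  r1d : Ck (bx1 d.p d.q) (comb [(d.e, d.A), ((sb d.L d.e), d.D)]) []
  r2a : Ck (bx2 d.p d.q) d.A []
  r2e : Ck (bx2 d.p d.q) (comb [((sb d.L d.e), d.Z), (d.e, d.A)]) [uv]
  r2t : Ck (bx2 d.p d.q) (comb [((sb d.L d.e), d.Z), (d.f, d.A), ((sb d.e d.f), d.B)]) [uv]
  r2x : Ck (bx2 d.p d.q) (comb [((sb (sb d.L d.e) d.f), d.Z), (d.e, d.B), (d.f, d.D)])
    [uv, (sb (sb d.L d.e) d.f)]
  r2s : Ck (bx2 d.p d.q) (comb [(d.e, d.A), ((sb d.L d.e), d.D)]) []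
  r2y : Ck (bx2 d.p d.q) (comb [(d.e, d.B), ((sb d.L d.e), d.D)]) [(sb (sb d.L d.e) d.f)]
  r2l : Ck (bx2 d.p d.q) (comb [((sb (Ex.add d.e d.f) d.L), d.A), ((sb d.L d.f), d.B),
    ((sb d.L d.e), d.D)]) [uv, (sb (Ex.add d.e d.f) d.L)]
  r3m : Ck (bx3 d.p d.q) (comb [((sb (sb (sb d.L2 d.e) d.f) d.g), d.Z),
    ((sb (Ex.add d.e d.f) d.g), d.A), ((sb (Ex.add d.e d.g) d.f), d.B),
    ((sb (Ex.add d.f d.g) d.e), d.D)])
    [uv, vt, (sb (Ex.add d.f d.g) d.e), (sb (sb (sb d.L2 d.e) d.f) d.g)]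
  r3x : Ck (bx3 d.p d.q) (comb [((sb (sb d.L d.e) d.f), d.Z), (d.e, d.B), (d.f, d.D)])
    [uv, (sb (Ex.add d.e d.f) d.g), (sb (sb d.L d.e) d.f)]
  r3t : Ck (bx3 d.p d.q) (comb [((sb d.L d.e), d.Z), (d.f, d.A), ((sb d.e d.f), d.B)])
    [(sb (sb d.e d.f) d.g)]
  r3l : Ck (bx3 d.p d.q) (comb [((sb (Ex.add d.e d.f) d.L), d.A), ((sb d.L d.f), d.B),
    ((sb d.L d.e), d.D)]) [uv, (sb (Ex.add d.e d.f) d.L), (sb (sb (sb d.L2 d.e) d.f) d.g)]
  r3y : Ck (bx3 d.p d.q) (comb [(d.e, d.B), ((sb d.L d.e), d.D)]) [(sb (sb d.L d.e) d.f)]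

theorem fam_of {d : Dt} {C : Cert} {N : ℕ} {L : ℝ} (K : d.OK C N L) (H : Cks d) :
    Fam C N L := by
  have q0 : (0 : ℝ) < d.q := by exact_mod_cast K.q0
  have hL := K.hL
  have hz := K.hz
  have ha := K.ha
  constructor
  · intro u v t hu hv ht hg h1 h2
    have h := H.r0z.neg0 hu hv ht hg (by
      intro c hc
      simp only [List.mem_cons, List.not_mem_nil, or_false] at hc
      rcases hc with rfl | rfl
      · rw [ev_uv]; linarith
      · rw [ev_vt]; linarith)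
    rw [evZ] at h
    rw [hz]
    exact h
  · intro u v t hu hv ht hg h1
    have h := H.r0a.neg0 hu hv ht hg (by
      intro c hc
      simp only [List.mem_cons, List.not_mem_nil, or_false] at hc
      subst hc
      rw [ev_uv]; linarith)
    rw [evA] at h
    rw [ha]
    exact h
  · intro u v t hu hv ht hg
    have h := H.r1a.neg1 K.q0 hL hu hv ht hg (by simp)
    rw [evA] at h
    rw [ha]
    exact h
  · intro u v t hu hv ht hg
    have h := H.r1e.neg1 K.q0 hL hu hv ht hg (by simp)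
    simp only [ev_comb, List.map_cons, List.map_nil, List.sum_cons, List.sum_nil, ev_sb, evZ, evA,
      eve, evL, hL] at h
    refine scale q0 h ?_
    rw [hz, ha]
    ring
  · intro u v t hu hv ht hg
    have h := H.r1d.neg1 K.q0 hL hu hv ht hg (by simp)
    simp only [ev_comb, List.map_cons, List.map_nil, List.sum_cons, List.sum_nil, ev_sb, evD, evA,
      eve, evL, hL] at h
    refine scale q0 h ?_
    rw [ha, ha]
    ring
  · intro u v t hu hv ht hg
    have h := H.r2a.neg2 K.q0 hL hu hv ht hg (by simp)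
    rw [evA] at h
    rw [ha]
    exact h
  · intro u v t hu hv ht hg h1
    have h := H.r2e.neg2 K.q0 hL hu hv ht hg (by
      intro c hc
      simp only [List.mem_cons, List.not_mem_nil, or_false] at hc
      subst hc
      rw [ev_uv]; linarith)
    simp only [ev_comb, List.map_cons, List.map_nil, List.sum_cons, List.sum_nil, ev_sb, evZ, evA,
      eve, evL, hL] at h
    refine scale q0 h ?_
    rw [hz, ha]
    ring
  · intro u v t hu hv ht hg h1
    have h := H.r2t.neg2 K.q0 hL hu hv ht hg (by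
      intro c hc
      simp only [List.mem_cons, List.not_mem_nil, or_false] at hc
      subst hc
      rw [ev_uv]; linarith)
    simp only [ev_comb, List.map_cons, List.map_nil, List.sum_cons, List.sum_nil, ev_sb, evZ, evA,
      evB, eve, evf, evL, hL] at h
    refine scale q0 h ?_
    rw [hz, ha, ha]
    ring
  · intro u v t hu hv ht hg h1 h2
    have h := H.r2x.neg2 K.q0 hL hu hv ht hg (by
      intro c hc
      simp only [List.mem_cons, List.not_mem_nil, or_false] at hc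
      rcases hc with rfl | rfl
      · rw [ev_uv]; linarith
      · simp only [ev_sb, evL, eve, evf, hL]
        nlinarith)
    simp only [ev_comb, List.map_cons, List.map_nil, List.sum_cons, List.sum_nil, ev_sb, evZ, evD,
      evB, eve, evf, evL, hL] at h
    refine scale q0 h ?_
    rw [hz, ha, ha]
    ring
  · intro u v t hu hv ht hg
    have h := H.r2s.neg2 K.q0 hL hu hv ht hg (by simp)
    simp only [ev_comb, List.map_cons, List.map_nil, List.sum_cons, List.sum_nil, ev_sb, evD, evA,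
      eve, evL, hL] at h
    refine scale q0 h ?_
    rw [ha, ha]
    ring
  · intro u v t hu hv ht hg h1
    have h := H.r2y.neg2 K.q0 hL hu hv ht hg (by
      intro c hc
      simp only [List.mem_cons, List.not_mem_nil, or_false] at hc
      subst hc
      simp only [ev_sb, evL, eve, evf, hL]
      nlinarith)
    simp only [ev_comb, List.map_cons, List.map_nil, List.sum_cons, List.sum_nil, ev_sb, evD, evB,
      eve, evL, hL] at h
    refine scale q0 h ?_
    rw [ha, ha]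
    ring
  · intro u v t hu hv ht hg h1 h2
    have h := H.r2l.neg2 K.q0 hL hu hv ht hg (by
      intro c hc
      simp only [List.mem_cons, List.not_mem_nil, or_false] at hc
      rcases hc with rfl | rfl
      · rw [ev_uv]; linarith
      · simp only [ev_sb, ev_add, evL, eve, evf, hL]
        nlinarith)
    simp only [ev_comb, List.map_cons, List.map_nil, List.sum_cons, List.sum_nil, ev_sb, ev_add,
      evA, evD, evB, eve, evf, evL, hL] at h
    refine scale q0 h ?_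
    rw [ha, ha, ha]
    ring
  · intro u v t hu hv ht hg h1 h2 h3 h4
    have h := H.r3m.neg3 K.q0 hL hu hv ht hg (by
      intro c hc
      simp only [List.mem_cons, List.not_mem_nil, or_false] at hc
      rcases hc with rfl | rfl | rfl | rfl
      · rw [ev_uv]; linarith
      · rw [ev_vt]; linarith
      · simp only [ev_sb, ev_add, eve, evf, evg]
        nlinarith
      · simp only [ev_sb, evL2, eve, evf, evg, hL]
        nlinarith)
    simp only [ev_comb, List.map_cons, List.map_nil, List.sum_cons, List.sum_nil, ev_sb, ev_add,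
      evZ, evA, evD, evB, eve, evf, evg, evL2, hL] at h
    refine scale q0 h ?_
    rw [hz, ha, ha, ha]
    ring
  · intro u v t hu hv ht hg h1 h2 h3
    have h := H.r3x.neg3 K.q0 hL hu hv ht hg (by
      intro c hc
      simp only [List.mem_cons, List.not_mem_nil, or_false] at hc
      rcases hc with rfl | rfl | rfl
      · rw [ev_uv]; linarith
      · simp only [ev_sb, ev_add, eve, evf, evg]
        nlinarith
      · simp only [ev_sb, evL, eve, evf, hL]
        nlinarith)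
    simp only [ev_comb, List.map_cons, List.map_nil, List.sum_cons, List.sum_nil, ev_sb, evZ, evD,
      evB, eve, evf, evL, hL] at h
    refine scale q0 h ?_
    rw [hz, ha, ha]
    ring
  · intro u v t hu hv ht hg h1
    have h := H.r3t.neg3 K.q0 hL hu hv ht hg (by
      intro c hc
      simp only [List.mem_cons, List.not_mem_nil, or_false] at hc
      subst hc
      simp only [ev_sb, eve, evf, evg]
      nlinarith)
    simp only [ev_comb, List.map_cons, List.map_nil, List.sum_cons, List.sum_nil, ev_sb, evZ, evA,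
      evB, eve, evf, evL, hL] at h
    refine scale q0 h ?_
    rw [hz, ha, ha]
    ring
  · intro u v t hu hv ht hg h1 h2 h3
    have h := H.r3l.neg3 K.q0 hL hu hv ht hg (by
      intro c hc
      simp only [List.mem_cons, List.not_mem_nil, or_false] at hc
      rcases hc with rfl | rfl | rfl
      · rw [ev_uv]; linarith
      · simp only [ev_sb, ev_add, evL, eve, evf, hL]
        nlinarith
      · simp only [ev_sb, evL2, eve, evf, evg, hL]
        nlinarith)
    simp only [ev_comb, List.map_cons, List.map_nil, List.sum_cons, List.sum_nil, ev_sb, ev_add,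
      evA, evD, evB, eve, evf, evL, hL] at h
    refine scale q0 h ?_
    rw [ha, ha, ha]
    ring
  · intro u v t hu hv ht hg h1
    have h := H.r3y.neg3 K.q0 hL hu hv ht hg (by
      intro c hc
      simp only [List.mem_cons, List.not_mem_nil, or_false] at hc
      subst hc
      simp only [ev_sb, evL, eve, evf, hL]
      nlinarith)
    simp only [ev_comb, List.map_cons, List.map_nil, List.sum_cons, List.sum_nil, ev_sb, evD, evB,
      eve, evL, hL] at h
    refine scale q0 h ?_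
    rw [ha, ha]
    ring

end Pool.Agent.DVX
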