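import Pool.Agent.SDL.AffReg

set_option autoImplicit false

/-!
# Vert: the marks are eliminated by the vertices of their polytope
-/

namespace Pool.Agent.DVX

/-- An affine function which is nonnegative at a point of a segment is nonnegative at one of the
end points. -/
theorem segF (F : ℝ → ℝ) (hF : ∀ x, F x = F 0 + (F 1 - F 0) * x) {p q x : ℝ} (h1 : p ≤ x)
    (h2 : x ≤ q) (h : 0 ≤ F x) : 0 ≤ F p ∨ 0 ≤ F q := by
  rw [hF x] at h
  rw [hF p, hF q]
  generalize F 1 - F 0 = k at *
  generalize F 0 = c at *
  rcases le_total 0 k with hk | hk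
  · right
    nlinarith
  · left
    nlinarith

/-- The value at the marks `a / L`, `b / L`, `d / L`, times `L`. -/
def Fv (Z A B D L a b d : ℝ) : ℝ := (L - a - b - d) * Z + a * A + b * B + d * D

/-- The inequalities at the vertices, for `e ≥ f ≥ g ≥ 0`. -/
structure VH (Z A B D L e f g : ℝ) : Prop where
  m : e ≤ f + g → e + f + g ≤ 2 * L →
    (2 * L - e - f - g) * Z + (e + f - g) * A + (e + g - f) * B + (f + g - e) * D < 0
  x1 : e + f ≤ L → (L - e - f) * Z + e * B + f * D < 0
  x2 : e + g ≤ L → (L - e - g) * Z + e * A + g * D < 0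
  x3 : f + g ≤ L → e ≤ f + g → (L - f - g) * Z + f * A + g * B < 0
  t1 : f + g ≤ e → (L - e) * Z + f * A + (e - f) * B < 0
  t2 : f + g ≤ e → (L - e) * Z + (e - g) * A + g * B < 0
  l1 : L ≤ e + f → e + f + g ≤ 2 * L → (e + f - L) * A + (L - f) * B + (L - e) * D < 0
  l2 : L ≤ e + g → e + f + g ≤ 2 * L → (L - g) * A + (e + g - L) * B + (L - e) * D < 0
  l3 : L ≤ f + g → e + f + g ≤ 2 * L → (L - g) * A + (L - f) * B + (f + g - L) * D < 0
  y1 : e + f ≤ L → e * B + (L - e) * D < 0
  y2 : e + f ≤ L → (L - f) * B + f * D < 0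
  y3 : e + g ≤ L → e * A + (L - e) * D < 0
  y4 : e + g ≤ L → (L - g) * A + g * D < 0
  y5 : f + g ≤ L → f * A + (L - f) * B < 0
  y6 : f + g ≤ L → (L - g) * A + g * B < 0

section

variable {Z A B D L e f g : ℝ} (H : VH Z A B D L e f g) (he : e ≤ L) (hf : f ≤ e) (hg : g ≤ f)
  (h0 : 0 ≤ g) (hs : e + f + g ≤ 2 * L)

include H he hf hg h0 hs

theorem eS1 {a : ℝ} (h1 : e ≤ a) (h2 : a ≤ L - g) (h : 0 ≤ Fv Z A B D L a 0 (L - a)) :
    False := by
  rcases segF (fun a => Fv Z A B D L a 0 (L - a)) (fun x => by simp only [Fv]; ring) h1 h2 h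
    with h | h
  · have := H.y3 (by linarith)
    simp only [Fv] at h
    linarith
  · have := H.y4 (by linarith)
    simp only [Fv] at h
    linarith

theorem eS3 {a : ℝ} (h1 : f ≤ a) (h2 : a ≤ L - g) (h : 0 ≤ Fv Z A B D L a (L - a) 0) :
    False := by
  rcases segF (fun a => Fv Z A B D L a (L - a) 0) (fun x => by simp only [Fv]; ring) h1 h2 h
    with h | h
  · have := H.y5 (by linarith)
    simp only [Fv] at h
    linarith
  · have := H.y6 (by linarith)
    simp only [Fv] at h
    linarith

theorem eS2 {a : ℝ} (h1 : 0 ≤ a) (h1' : e + f - L ≤ a) (h2 : a ≤ e) (h2' : a ≤ L - g)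
    (h : 0 ≤ Fv Z A B D L a (e - a) (L - e)) : False := by
  have hF : ∀ x, (fun a => Fv Z A B D L a (e - a) (L - e)) x =
      (fun a => Fv Z A B D L a (e - a) (L - e)) 0 +
      ((fun a => Fv Z A B D L a (e - a) (L - e)) 1 -
        (fun a => Fv Z A B D L a (e - a) (L - e)) 0) * x := fun x => by simp only [Fv]; ring
  have k1 : ∀ p, p ≤ a → 0 ≤ Fv Z A B D L p (e - p) (L - e) ∨ False := by
    intro p hp
    rcases le_total e (L - g) with hc | hc
    · rcases segF _ hF hp h2 h with h | h
      · exact Or.inl h
      · have := H.y3 (by linarith)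
        simp only [Fv] at h
        right
        linarith
    · rcases segF _ hF hp h2' h with h | h
      · exact Or.inl h
      · have := H.l2 (by linarith) hs
        simp only [Fv] at h
        right
        linarith
  rcases le_total (e + f) L with hc | hc
  · rcases k1 0 h1 with h | h
    · have := H.y1 (by linarith)
      simp only [Fv] at h
      linarith
    · exact h
  · rcases k1 (e + f - L) h1' with h | h
    · have := H.l1 (by linarith) hs
      simp only [Fv] at h
      linarith
    · exact h

theorem eS4 {a : ℝ} (h1 : 0 ≤ a) (h1' : e + f - L ≤ a) (h2 : a ≤ f) (h2' : a ≤ L - g)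
    (h : 0 ≤ Fv Z A B D L a (L - f) (f - a)) : False := by
  have hF : ∀ x, (fun a => Fv Z A B D L a (L - f) (f - a)) x =
      (fun a => Fv Z A B D L a (L - f) (f - a)) 0 +
      ((fun a => Fv Z A B D L a (L - f) (f - a)) 1 -
        (fun a => Fv Z A B D L a (L - f) (f - a)) 0) * x := fun x => by simp only [Fv]; ring
  have k1 : ∀ p, p ≤ a → 0 ≤ Fv Z A B D L p (L - f) (f - p) ∨ False := by
    intro p hp
    rcases le_total f (L - g) with hc | hc
    · rcases segF _ hF hp h2 h with h | h
      · exact Or.inl h
      · have := H.y5 (by linarith)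
        simp only [Fv] at h
        right
        linarith
    · rcases segF _ hF hp h2' h with h | h
      · exact Or.inl h
      · have := H.l3 (by linarith) hs
        simp only [Fv] at h
        right
        linarith
  rcases le_total (e + f) L with hc | hc
  · rcases k1 0 h1 with h | h
    · have := H.y2 (by linarith)
      simp only [Fv] at h
      linarith
    · exact h
  · rcases k1 (e + f - L) h1' with h | h
    · have := H.l1 (by linarith) hs
      simp only [Fv] at h
      linarith
    · exact h

theorem e01 {a : ℝ} (h1 : f ≤ a) (h1' : e - g ≤ a) (h2 : a ≤ L - g)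
    (h : 0 ≤ Fv Z A B D L a g 0) : False := by
  have hF : ∀ x, (fun a => Fv Z A B D L a g 0) x =
      (fun a => Fv Z A B D L a g 0) 0 +
      ((fun a => Fv Z A B D L a g 0) 1 - (fun a => Fv Z A B D L a g 0) 0) * x :=
    fun x => by simp only [Fv]; ring
  rcases le_total e (f + g) with hc | hc
  · rcases segF _ hF h1 h2 h with h | h
    · have := H.x3 (by linarith) hc
      simp only [Fv] at h
      linarith
    · have := H.y6 (by linarith)
      simp only [Fv] at h
      linarith
  · rcases segF _ hF h1' h2 h with h | h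
    · have := H.t2 hc
      simp only [Fv] at h
      linarith
    · have := H.y6 (by linarith)
      simp only [Fv] at h
      linarith

theorem e02 {a : ℝ} (h1 : f ≤ a) (h2 : a ≤ e - g) (h : 0 ≤ Fv Z A B D L a (e - a) 0) :
    False := by
  rcases segF (fun a => Fv Z A B D L a (e - a) 0) (fun x => by simp only [Fv]; ring) h1 h2 h
    with h | h
  · have := H.t1 (by linarith)
    simp only [Fv] at h
    linarith
  · have := H.t2 (by linarith)
    simp only [Fv] at h
    linarith

theorem eF1 {a : ℝ} (h1 : 0 ≤ a) (h1' : e + f - L ≤ a) (h2 : a ≤ f) (h2' : a ≤ (e + f - g) / 2)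
    (h : 0 ≤ Fv Z A B D L a (e - a) (f - a)) : False := by
  have hF : ∀ x, (fun a => Fv Z A B D L a (e - a) (f - a)) x =
      (fun a => Fv Z A B D L a (e - a) (f - a)) 0 +
      ((fun a => Fv Z A B D L a (e - a) (f - a)) 1 -
        (fun a => Fv Z A B D L a (e - a) (f - a)) 0) * x := fun x => by simp only [Fv]; ring
  have k1 : ∀ p, p ≤ a → 0 ≤ Fv Z A B D L p (e - p) (f - p) ∨ False := by
    intro p hp
    rcases le_total (f + g) e with hc | hc
    · rcases segF _ hF hp h2 h with h | h
      · exact Or.inl h
      · have := H.t1 hc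
        simp only [Fv] at h
        right
        linarith
    · rcases segF _ hF hp h2' h with h | h
      · exact Or.inl h
      · have := H.m hc hs
        simp only [Fv] at h
        right
        linarith
  rcases le_total (e + f) L with hc | hc
  · rcases k1 0 h1 with h | h
    · have := H.x1 (by linarith)
      simp only [Fv] at h
      linarith
    · exact h
  · rcases k1 (e + f - L) h1' with h | h
    · have := H.l1 (by linarith) hs
      simp only [Fv] at h
      linarith
    · exact h

theorem eF2 {a : ℝ} (h1 : (e + f - g) / 2 ≤ a) (h2 : a ≤ f) (h2' : a ≤ L - g)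
    (h : 0 ≤ Fv Z A B D L a (g - f + a) (f - a)) : False := by
  have hF : ∀ x, (fun a => Fv Z A B D L a (g - f + a) (f - a)) x =
      (fun a => Fv Z A B D L a (g - f + a) (f - a)) 0 +
      ((fun a => Fv Z A B D L a (g - f + a) (f - a)) 1 -
        (fun a => Fv Z A B D L a (g - f + a) (f - a)) 0) * x := fun x => by simp only [Fv]; ring
  have hm := H.m (by linarith) hs
  rcases le_total (f + g) L with hc | hc
  · rcases segF _ hF h1 h2 h with h | h
    · simp only [Fv] at h
      linarith
    · have := H.x3 hc (by linarith)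
      simp only [Fv] at h
      linarith
  · rcases segF _ hF h1 h2' h with h | h
    · simp only [Fv] at h
      linarith
    · have := H.l3 hc hs
      simp only [Fv] at h
      linarith

theorem eG0 {b : ℝ} (h1 : 0 ≤ b) (h1' : e + g - L ≤ b) (h2 : b ≤ g) (h2' : b ≤ L - f)
    (h : 0 ≤ Fv Z A B D L (L - g) b (g - b)) : False := by
  have hF : ∀ x, (fun b => Fv Z A B D L (L - g) b (g - b)) x =
      (fun b => Fv Z A B D L (L - g) b (g - b)) 0 +
      ((fun b => Fv Z A B D L (L - g) b (g - b)) 1 -
        (fun b => Fv Z A B D L (L - g) b (g - b)) 0) * x := fun x => by simp only [Fv]; ring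
  have k1 : ∀ p, p ≤ b → 0 ≤ Fv Z A B D L (L - g) p (g - p) ∨ False := by
    intro p hp
    rcases le_total (f + g) L with hc | hc
    · rcases segF _ hF hp h2 h with h | h
      · exact Or.inl h
      · have := H.y6 hc
        simp only [Fv] at h
        right
        linarith
    · rcases segF _ hF hp h2' h with h | h
      · exact Or.inl h
      · have := H.l3 hc hs
        simp only [Fv] at h
        right
        linarith
  rcases le_total (e + g) L with hc | hc
  · rcases k1 0 h1 with h | h
    · have := H.y4 hc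
      simp only [Fv] at h
      linarith
    · exact h
  · rcases k1 (e + g - L) h1' with h | h
    · have := H.l2 hc hs
      simp only [Fv] at h
      linarith
    · exact h

theorem eG1 {b : ℝ} (h1 : 0 ≤ b) (h1' : e + g - L ≤ b) (h2 : b ≤ g) (h2' : b ≤ (e + g - f) / 2)
    (h : 0 ≤ Fv Z A B D L (e - b) b (g - b)) : False := by
  have hF : ∀ x, (fun b => Fv Z A B D L (e - b) b (g - b)) x =
      (fun b => Fv Z A B D L (e - b) b (g - b)) 0 +
      ((fun b => Fv Z A B D L (e - b) b (g - b)) 1 -
        (fun b => Fv Z A B D L (e - b) b (g - b)) 0) * x := fun x => by simp only [Fv]; ring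
  have k1 : ∀ p, p ≤ b → 0 ≤ Fv Z A B D L (e - p) p (g - p) ∨ False := by
    intro p hp
    rcases le_total (f + g) e with hc | hc
    · rcases segF _ hF hp h2 h with h | h
      · exact Or.inl h
      · have := H.t2 hc
        simp only [Fv] at h
        right
        linarith
    · rcases segF _ hF hp h2' h with h | h
      · exact Or.inl h
      · have := H.m hc hs
        simp only [Fv] at h
        right
        linarith
  rcases le_total (e + g) L with hc | hc
  · rcases k1 0 h1 with h | h
    · have := H.x2 hc
      simp only [Fv] at h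
      linarith
    · exact h
  · rcases k1 (e + g - L) h1' with h | h
    · have := H.l2 hc hs
      simp only [Fv] at h
      linarith
    · exact h

theorem eG2 {b : ℝ} (h1 : (e + g - f) / 2 ≤ b) (h2 : b ≤ g) (h2' : b ≤ L - f)
    (h : 0 ≤ Fv Z A B D L (f - g + b) b (g - b)) : False := by
  have hF : ∀ x, (fun b => Fv Z A B D L (f - g + b) b (g - b)) x =
      (fun b => Fv Z A B D L (f - g + b) b (g - b)) 0 +
      ((fun b => Fv Z A B D L (f - g + b) b (g - b)) 1 -
        (fun b => Fv Z A B D L (f - g + b) b (g - b)) 0) * x := fun x => by simp only [Fv]; ring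
  have hm := H.m (by linarith) hs
  rcases le_total (f + g) L with hc | hc
  · rcases segF _ hF h1 h2 h with h | h
    · simp only [Fv] at h
      linarith
    · have := H.x3 hc (by linarith)
      simp only [Fv] at h
      linarith
  · rcases segF _ hF h1 h2' h with h | h
    · simp only [Fv] at h
      linarith
    · have := H.l3 hc hs
      simp only [Fv] at h
      linarith

/-- The face of the total mark one. -/
theorem fS {a b : ℝ} (ha : 0 ≤ a) (hb : 0 ≤ b) (h1 : e ≤ a + b) (h2 : a + b ≤ L)
    (h3 : b ≤ L - f) (h4 : a ≤ L - g) (h : 0 ≤ Fv Z A B D L a b (L - a - b)) : False := by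
  have hF : ∀ x, (fun b => Fv Z A B D L a b (L - a - b)) x =
      (fun b => Fv Z A B D L a b (L - a - b)) 0 +
      ((fun b => Fv Z A B D L a b (L - a - b)) 1 -
        (fun b => Fv Z A B D L a b (L - a - b)) 0) * x := fun x => by simp only [Fv]; ring
  -- the upper end
  have k1 : ∀ p, p ≤ b → 0 ≤ Fv Z A B D L a p (L - a - p) ∨ False := by
    intro p hp
    rcases le_total f a with hc | hc
    · rcases segF _ hF hp (show b ≤ L - a by linarith) h with h | h
      · exact Or.inl h
      · refine Or.inr (eS3 H he hf hg h0 hs hc h4 ?_)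
        simp only [Fv] at h ⊢
        linarith
    · rcases segF _ hF hp h3 h with h | h
      · exact Or.inl h
      · refine Or.inr (eS4 H he hf hg h0 hs ha (by linarith) hc h4 ?_)
        simp only [Fv] at h ⊢
        linarith
  rcases le_total e a with hc | hc
  · rcases k1 0 hb with h | h
    · refine eS1 H he hf hg h0 hs hc h4 ?_
      simp only [Fv] at h ⊢
      linarith
    · exact h
  · rcases k1 (e - a) (by linarith) with h | h
    · refine eS2 H he hf hg h0 hs ha (by linarith) hc h4 ?_
      simp only [Fv] at h ⊢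
      linarith
    · exact h

/-- The face `d = 0`. -/
theorem f0 {a b : ℝ} (h3 : f ≤ a) (h4 : g ≤ b) (h1 : e ≤ a + b) (h2 : a + b ≤ L)
    (h : 0 ≤ Fv Z A B D L a b 0) : False := by
  have hF : ∀ x, (fun b => Fv Z A B D L a b 0) x =
      (fun b => Fv Z A B D L a b 0) 0 +
      ((fun b => Fv Z A B D L a b 0) 1 -
        (fun b => Fv Z A B D L a b 0) 0) * x := fun x => by simp only [Fv]; ring
  rcases le_total (e - g) a with hc | hc
  · rcases segF _ hF h4 (show b ≤ L - a by linarith) h with h | h
    · exact e01 H he hf hg h0 hs h3 hc (by linarith) h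
    · exact eS3 H he hf hg h0 hs h3 (by linarith) h
  · rcases segF _ hF (show e - a ≤ b by linarith) (show b ≤ L - a by linarith) h with h | h
    · exact e02 H he hf hg h0 hs h3 hc h
    · exact eS3 H he hf hg h0 hs h3 (by linarith) h

/-- The face `d = f - a`. -/
theorem fF {a b : ℝ} (ha : 0 ≤ a) (hb : 0 ≤ b) (h1 : e ≤ a + b) (h2 : a ≤ f)
    (h3 : g - f + a ≤ b) (h4 : b ≤ L - f) (h : 0 ≤ Fv Z A B D L a b (f - a)) : False := by
  have hF : ∀ x, (fun b => Fv Z A B D L a b (f - a)) x =
      (fun b => Fv Z A B D L a b (f - a)) 0 +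
      ((fun b => Fv Z A B D L a b (f - a)) 1 -
        (fun b => Fv Z A B D L a b (f - a)) 0) * x := fun x => by simp only [Fv]; ring
  have h5 : a ≤ L - g := by linarith
  rcases le_total a ((e + f - g) / 2) with hc | hc
  · rcases segF _ hF (show e - a ≤ b by linarith) h4 h with h | h
    · exact eF1 H he hf hg h0 hs ha (by linarith) h2 hc h
    · exact eS4 H he hf hg h0 hs ha (by linarith) h2 h5 h
  · rcases segF _ hF h3 h4 h with h | h
    · exact eF2 H he hf hg h0 hs hc h2 h5 h
    · exact eS4 H he hf hg h0 hs ha (by linarith) h2 h5 h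

/-- The face `d = g - b`. -/
theorem fG {a b : ℝ} (ha : 0 ≤ a) (hb : 0 ≤ b) (h1 : e ≤ a + b) (h2 : b ≤ g)
    (h3 : f - g + b ≤ a) (h4 : a ≤ L - g) (h : 0 ≤ Fv Z A B D L a b (g - b)) : False := by
  have hF : ∀ x, (fun a => Fv Z A B D L a b (g - b)) x =
      (fun a => Fv Z A B D L a b (g - b)) 0 +
      ((fun a => Fv Z A B D L a b (g - b)) 1 -
        (fun a => Fv Z A B D L a b (g - b)) 0) * x := fun x => by simp only [Fv]; ring
  have h5 : b ≤ L - f := by linarith
  rcases le_total b ((e + g - f) / 2) with hc | hc
  · rcases segF _ hF (show e - b ≤ a by linarith) h4 h with h | h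
    · exact eG1 H he hf hg h0 hs hb (by linarith) h2 hc h
    · exact eG0 H he hf hg h0 hs hb (by linarith) h2 h5 h
  · rcases segF _ hF h3 h4 h with h | h
    · exact eG2 H he hf hg h0 hs hc h2 h5 h
    · exact eG0 H he hf hg h0 hs hb (by linarith) h2 h5 h

/-- The inequality on the whole polytope. -/
theorem vert3 {a b d : ℝ} (ha : 0 ≤ a) (hb : 0 ≤ b) (hd : 0 ≤ d) (h1 : a + b + d ≤ L)
    (h2 : e ≤ a + b) (h3 : f ≤ a + d) (h4 : g ≤ b + d) : Fv Z A B D L a b d < 0 := by
  by_contra hc
  push Not at hc
  have hF : ∀ x, (fun d => Fv Z A B D L a b d) x =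
      (fun d => Fv Z A B D L a b d) 0 +
      ((fun d => Fv Z A B D L a b d) 1 -
        (fun d => Fv Z A B D L a b d) 0) * x := fun x => by simp only [Fv]; ring
  have key : ∀ p, p ≤ d → 0 ≤ Fv Z A B D L a b p ∨ False := by
    intro p hp
    rcases segF _ hF hp (show d ≤ L - a - b by linarith) hc with h | h
    · exact Or.inl h
    · exact Or.inr (fS H he hf hg h0 hs ha hb h2 (by linarith) (by linarith) (by linarith) h)
  rcases le_total (f - a) (g - b) with c1 | c1
  · rcases le_total (g - b) 0 with c2 | c2
    · rcases key 0 hd with h | h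
      · exact f0 H he hf hg h0 hs (by linarith) (by linarith) h2 (by linarith) h
      · exact h
    · rcases key (g - b) (by linarith) with h | h
      · exact fG H he hf hg h0 hs ha hb h2 (by linarith) (by linarith) (by linarith) h
      · exact h
  · rcases le_total (f - a) 0 with c2 | c2
    · rcases key 0 hd with h | h
      · exact f0 H he hf hg h0 hs (by linarith) (by linarith) h2 (by linarith) h
      · exact h
    · rcases key (f - a) (by linarith) with h | h
      · exact fF H he hf hg h0 hs ha hb h2 (by linarith) (by linarith) (by linarith) h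
      · exact h

end

end Pool.Agent.DVX
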