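import Pool.Agent.DVX.Items
import Pool.Agent.DVX.Vert

set_option autoImplicit false

/-!
# Glue: from the boxes to the triple inequality
-/

namespace Pool.Agent.DVX

open Pool.Agent.BPK Pool.Agent.SDL

/-- A side which is not close. -/
def I0 (x : ℝ) : Prop := -1 ≤ x ∧ x ≤ 1 / 2

/-- A close side. -/
def I1 (L x : ℝ) : Prop := 1 / 2 ≤ x ∧ x ≤ (1 + L) / 2

/-- The inequalities of the boxes. -/
structure Fam (C : Cert) (N : ℕ) (L : ℝ) : Prop where
  r0z : ∀ u v t, I0 u → I0 v → I0 t → Gm u v t → v ≤ u → t ≤ v → C.Z0 N u v t < 0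
  r0a : ∀ u v t, I0 u → I0 v → I0 t → Gm u v t → v ≤ u → C.Z1 N u v t < 0
  r1a : ∀ u v t, I1 L u → I0 v → I0 t → Gm u v t → C.Z1 N u v t < 0
  r1e : ∀ u v t, I1 L u → I0 v → I0 t → Gm u v t →
    (L - (2 * u - 1)) * C.Z0 N u v t + (2 * u - 1) * C.Z1 N u v t < 0
  r1d : ∀ u v t, I1 L u → I0 v → I0 t → Gm u v t →
    (2 * u - 1) * C.Z1 N u v t + (L - (2 * u - 1)) * C.Z1 N v t u < 0
  r2a : ∀ u v t, I1 L u → I1 L v → I0 t → Gm u v t → C.Z1 N u v t < 0
  r2e : ∀ u v t, I1 L u → I1 L v → I0 t → Gm u v t → v ≤ u →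
    (L - (2 * u - 1)) * C.Z0 N u v t + (2 * u - 1) * C.Z1 N u v t < 0
  r2t : ∀ u v t, I1 L u → I1 L v → I0 t → Gm u v t → v ≤ u →
    (L - (2 * u - 1)) * C.Z0 N u v t + (2 * v - 1) * C.Z1 N u v t +
      ((2 * u - 1) - (2 * v - 1)) * C.Z1 N u t v < 0
  r2x : ∀ u v t, I1 L u → I1 L v → I0 t → Gm u v t → v ≤ u → (2 * u - 1) + (2 * v - 1) ≤ L →
    (L - (2 * u - 1) - (2 * v - 1)) * C.Z0 N u v t + (2 * u - 1) * C.Z1 N u t v +
      (2 * v - 1) * C.Z1 N v t u < 0
  r2s : ∀ u v t, I1 L u → I1 L v → I0 t → Gm u v t →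
    (2 * u - 1) * C.Z1 N u v t + (L - (2 * u - 1)) * C.Z1 N v t u < 0
  r2y : ∀ u v t, I1 L u → I1 L v → I0 t → Gm u v t → (2 * u - 1) + (2 * v - 1) ≤ L →
    (2 * u - 1) * C.Z1 N u t v + (L - (2 * u - 1)) * C.Z1 N v t u < 0
  r2l : ∀ u v t, I1 L u → I1 L v → I0 t → Gm u v t → v ≤ u → L ≤ (2 * u - 1) + (2 * v - 1) →
    ((2 * u - 1) + (2 * v - 1) - L) * C.Z1 N u v t + (L - (2 * v - 1)) * C.Z1 N u t v +
      (L - (2 * u - 1)) * C.Z1 N v t u < 0
  r3m : ∀ u v t, I1 L u → I1 L v → I1 L t → Gm u v t → v ≤ u → t ≤ v →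
    2 * u - 1 ≤ (2 * v - 1) + (2 * t - 1) → (2 * u - 1) + (2 * v - 1) + (2 * t - 1) ≤ 2 * L →
    (2 * L - (2 * u - 1) - (2 * v - 1) - (2 * t - 1)) * C.Z0 N u v t +
      ((2 * u - 1) + (2 * v - 1) - (2 * t - 1)) * C.Z1 N u v t +
      ((2 * u - 1) + (2 * t - 1) - (2 * v - 1)) * C.Z1 N u t v +
      ((2 * v - 1) + (2 * t - 1) - (2 * u - 1)) * C.Z1 N v t u < 0
  r3x : ∀ u v t, I1 L u → I1 L v → I1 L t → Gm u v t → v ≤ u →
    2 * t - 1 ≤ (2 * u - 1) + (2 * v - 1) → (2 * u - 1) + (2 * v - 1) ≤ L →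
    (L - (2 * u - 1) - (2 * v - 1)) * C.Z0 N u v t + (2 * u - 1) * C.Z1 N u t v +
      (2 * v - 1) * C.Z1 N v t u < 0
  r3t : ∀ u v t, I1 L u → I1 L v → I1 L t → Gm u v t → (2 * v - 1) + (2 * t - 1) ≤ 2 * u - 1 →
    (L - (2 * u - 1)) * C.Z0 N u v t + (2 * v - 1) * C.Z1 N u v t +
      ((2 * u - 1) - (2 * v - 1)) * C.Z1 N u t v < 0
  r3l : ∀ u v t, I1 L u → I1 L v → I1 L t → Gm u v t → v ≤ u → L ≤ (2 * u - 1) + (2 * v - 1) →
    (2 * u - 1) + (2 * v - 1) + (2 * t - 1) ≤ 2 * L →
    ((2 * u - 1) + (2 * v - 1) - L) * C.Z1 N u v t + (L - (2 * v - 1)) * C.Z1 N u t v +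
      (L - (2 * u - 1)) * C.Z1 N v t u < 0
  r3y : ∀ u v t, I1 L u → I1 L v → I1 L t → Gm u v t → (2 * u - 1) + (2 * v - 1) ≤ L →
    (2 * u - 1) * C.Z1 N u t v + (L - (2 * u - 1)) * C.Z1 N v t u < 0

section

variable {C : Cert} {N : ℕ} {L : ℝ}

theorem Gm_perm {u v t : ℝ} (h : Gm u v t) : Gm u t v ∧ Gm v u t ∧ Gm v t u ∧ Gm t u v ∧
    Gm t v u := by
  unfold Gm at *
  refine ⟨?_, ?_, ?_, ?_, ?_⟩ <;> linarith

/-- The triple inequality. -/
theorem TP_of_Fam (H : Fam C N L) (hL : 0 < L) : ∀ u v t, -1 ≤ t → t ≤ v → v ≤ u → u ≤ 1 →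
    Gm u v t → u ≤ (1 + L) / 2 → C.TP N L u v t := by
  intro u v t ht1 htv hvu hu1 hG huL
  obtain ⟨G2, G3, G4, G5, G6⟩ := Gm_perm hG
  -- the symmetries
  have z1 : C.Z0 N u t v = C.Z0 N u v t := C.Z0_swap' N u v t
  have z2 : C.Z0 N v u t = C.Z0 N u v t := C.Z0_swap N u v t
  have z3 : C.Z0 N v t u = C.Z0 N u v t := by rw [C.Z0_swap' N v u t, z2]
  have a1 : C.Z1 N v u t = C.Z1 N u v t := C.Z1_swap N u v t
  have b1 : C.Z1 N t u v = C.Z1 N u t v := C.Z1_swap N u t v
  have d1 : C.Z1 N t v u = C.Z1 N v t u := C.Z1_swap N v t u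
  rcases le_total u (1 / 2) with hu2 | hu2
  · -- no close side
    have iu : I0 u := ⟨by linarith, hu2⟩
    have iv : I0 v := ⟨by linarith, by linarith⟩
    have it : I0 t := ⟨ht1, by linarith⟩
    exact C.TP_of_vert0 N L u v t (H.r0z u v t iu iv it hG hvu htv)
      (H.r0a u v t iu iv it hG hvu) (H.r0a u t v iu it iv G2 (by linarith))
      (H.r0a v t u iv it iu G4 htv)
  have iu : I1 L u := ⟨hu2, huL⟩
  rcases le_total v (1 / 2) with hv2 | hv2
  · -- one close side
    have iv : I0 v := ⟨by linarith, hv2⟩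
    have it : I0 t := ⟨ht1, by linarith⟩
    have k1 := H.r1e u t v iu it iv G2
    have k2 := H.r1d u t v iu it iv G2
    rw [z1] at k1
    rw [d1] at k2
    exact C.TP_of_vert1 N L u v t hu2 huL (H.r1a u v t iu iv it hG) (H.r1a u t v iu it iv G2)
      (H.r1e u v t iu iv it hG) k1 (H.r1d u v t iu iv it hG) k2
  have iv : I1 L v := ⟨hv2, by linarith⟩
  -- two or three close sides
  have key : ∀ g : ℝ, 0 ≤ g → g ≤ 2 * v - 1 → 2 * t - 1 ≤ g → (∀ b d : ℝ, 2 * t - 1 ≤ L * (b + d) →
      0 ≤ b → 0 ≤ d → g ≤ L * (b + d)) →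
      ((2 * u - 1) + (2 * v - 1) + g ≤ 2 * L → VH (C.Z0 N u v t) (C.Z1 N u v t) (C.Z1 N u t v)
        (C.Z1 N v t u) L (2 * u - 1) (2 * v - 1) g) → C.TP N L u v t := by
    intro g hg0 hgv htg hbd hV a b d ha hb hd hs h1 h2 h3
    have h3' := hbd b d h3 hb hd
    have htot : (2 * u - 1) + (2 * v - 1) + g ≤ 2 * L := by nlinarith
    have h4 := vert3 (hV htot) (by linarith) (by linarith) hgv hg0 htot (a := L * a) (b := L * b)
      (d := L * d) (mul_nonneg hL.le ha) (mul_nonneg hL.le hb) (mul_nonneg hL.le hd)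
      (by nlinarith) (by linarith) (by linarith) (by linarith)
    have e : Fv (C.Z0 N u v t) (C.Z1 N u v t) (C.Z1 N u t v) (C.Z1 N v t u) L (L * a) (L * b)
        (L * d) = L * ((1 - a - b - d) * C.Z0 N u v t + a * C.Z1 N u v t + b * C.Z1 N u t v +
        d * C.Z1 N v t u) := by
      unfold Fv
      ring
    rw [e] at h4
    by_contra hc
    push Not at hc
    have := mul_nonneg hL.le hc
    linarith
  rcases le_total t (1 / 2) with ht2 | ht2
  · -- two close sides
    have it : I0 t := ⟨ht1, ht2⟩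
    refine key 0 le_rfl (by linarith) (by linarith) (fun b d _ hb hd => by positivity) ?_
    intro _
    have sA := H.r2a u v t iu iv it hG
    have sE := H.r2e u v t iu iv it hG hvu
    have sT := H.r2t u v t iu iv it hG hvu
    have sX := H.r2x u v t iu iv it hG hvu
    have sS := H.r2s u v t iu iv it hG
    have sS' := H.r2s v u t iv iu it G3
    have sY := H.r2y u v t iu iv it hG
    have sY' := H.r2y v u t iv iu it G3
    have sL := H.r2l u v t iu iv it hG hvu
    rw [a1] at sS'
    generalize C.Z0 N u v t = Z at *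
    generalize C.Z1 N u v t = A at *
    generalize C.Z1 N u t v = B at *
    generalize C.Z1 N v t u = D at *
    have hLe : 2 * u - 1 ≤ L := by linarith
    constructor
    · intro h1 _
      have h2 : v = u := by linarith
      subst h2
      linarith
    · intro h1
      have := sX h1
      linarith
    · intro _
      linarith
    · intro _ h1
      have h2 : v = u := by linarith
      subst h2
      linarith
    · intro _
      linarith
    · intro _
      linarith
    · intro h1 _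
      have := sL h1
      linarith
    · intro h1 _
      have h2 : L = 2 * u - 1 := by linarith
      have h3 := mul_neg_of_pos_of_neg hL sA
      subst h2
      linarith
    · intro h1 _
      have h2 : L = 2 * u - 1 := by linarith
      have h4 : v = u := by linarith
      have h3 := mul_neg_of_pos_of_neg hL sA
      subst h2
      subst h4
      linarith
    · intro h1
      have := sY h1
      linarith
    · intro h1
      have := sY' (by linarith)
      linarith
    · intro _
      linarith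
    · intro _
      have := mul_neg_of_pos_of_neg hL sA
      linarith
    · intro _
      linarith
    · intro _
      have := mul_neg_of_pos_of_neg hL sA
      linarith
  · -- three close sides
    have it : I1 L t := ⟨ht2, by linarith⟩
    refine key (2 * t - 1) (by linarith) (by linarith) le_rfl (fun b d h _ _ => h) ?_
    intro htot
    have sM := H.r3m u v t iu iv it hG hvu htv
    have sX1 := H.r3x u v t iu iv it hG hvu
    have sX2 := H.r3x u t v iu it iv G2 (by linarith)
    have sX3 := H.r3x v t u iv it iu G4 htv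
    have sT1 := H.r3t u v t iu iv it hG
    have sT2 := H.r3t u t v iu it iv G2
    have sL1 := H.r3l u v t iu iv it hG hvu
    have sL2 := H.r3l u t v iu it iv G2 (by linarith)
    have sL3 := H.r3l v t u iv it iu G4 htv
    have sY1 := H.r3y u v t iu iv it hG
    have sY2 := H.r3y v u t iv iu it G3
    have sY3 := H.r3y u t v iu it iv G2
    have sY4 := H.r3y t u v it iu iv G5
    have sY5 := H.r3y v t u iv it iu G4
    have sY6 := H.r3y t v u it iv iu G6
    rw [z1, d1] at sX2
    rw [z3, a1, b1] at sX3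
    rw [z1] at sT2
    rw [d1] at sL2
    rw [a1, b1] at sL3
    rw [d1] at sY3
    rw [d1] at sY4
    rw [a1, b1] at sY5
    rw [b1, a1] at sY6
    generalize C.Z0 N u v t = Z at *
    generalize C.Z1 N u v t = A at *
    generalize C.Z1 N u t v = B at *
    generalize C.Z1 N v t u = D at *
    constructor
    · intro h1 h2
      have := sM h1 h2
      linarith
    · intro h1
      have := sX1 (by linarith) h1
      linarith
    · intro h1
      have := sX2 (by linarith) h1
      linarith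
    · intro h1 h2
      have := sX3 h2 h1
      linarith
    · intro h1
      have := sT1 h1
      linarith
    · intro h1
      have := sT2 (by linarith)
      linarith
    · intro h1 h2
      have := sL1 h1 h2
      linarith
    · intro h1 h2
      have := sL2 h1 (by linarith)
      linarith
    · intro h1 h2
      have := sL3 h1 (by linarith)
      linarith
    · intro h1
      have := sY1 h1
      linarith
    · intro h1
      have := sY2 (by linarith)
      linarith
    · intro h1
      have := sY3 h1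
      linarith
    · intro h1
      have := sY4 (by linarith)
      linarith
    · intro h1
      have := sY5 h1
      linarith
    · intro h1
      have := sY6 (by linarith)
      linarith

end

end Pool.Agent.DVX
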