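import Pool.Agent.BPK.Ident
import Pool.Agent.BPK.Link
import Pool.Agent.SDL.AffReg
import Pool.Agent.SDL.AffEx

set_option autoImplicit false

/-!
# Items: the inequalities of the boxes
-/

namespace Pool.Agent.DVX

open Pool.Agent.BPK Pool.Agent.SDL

section

variable {E : Type} (o : EOps E)

/-- Horner scheme, the coefficients are expressions. -/
def horX (x : E) : List E → E
  | [] => o.cst 0
  | [c] => c
  | c :: l => o.ad c (o.mu x (horX x l))

/-- A polynomial in three variables. -/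
def pol3 (u v t : E) (l : List (List (List ℤ))) : E :=
  horX o t (l.map fun m => horX o v (m.map fun r => hor o u r))

end

/-- The real numbers. -/
noncomputable def realOps : EOps ℝ where
  cst z := z
  ad a b := a + b
  mu a b := a * b

theorem realOps_isEv : realOps.IsEv (fun x => x) := ⟨fun _ => rfl, fun _ _ => rfl, fun _ _ => rfl⟩

section

variable {E : Type} (o : EOps E)

theorem ev_horX {ev : E → ℝ} (H : o.IsEv ev) (x : E) (l : List E) :
    ev (horX o x l) = horX realOps (ev x) (l.map ev) := by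
  induction l with
  | nil => exact H.cst 0
  | cons c l ih =>
    cases l with
    | nil => rfl
    | cons d l =>
      have h1 : horX o x (c :: d :: l) = o.ad c (o.mu x (horX o x (d :: l))) := rfl
      rw [h1, H.ad, H.mu, ih]
      rfl

theorem ev_pol3 {ev : E → ℝ} (H : o.IsEv ev) (u v t : E) (l : List (List (List ℤ))) :
    ev (pol3 o u v t l) = pol3 realOps (ev u) (ev v) (ev t) l := by
  rw [pol3, pol3, ev_horX o H, List.map_map]
  congr 1
  apply List.map_congr_left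
  intro m _
  simp only [Function.comp]
  rw [ev_horX o H, List.map_map]
  congr 1
  apply List.map_congr_left
  intro r _
  simp only [Function.comp]
  rw [ev_hor o H]
  exact (ev_hor realOps realOps_isEv (ev u) r).symm

end

/-- The polynomial with real values. -/
noncomputable def P3 (l : List (List (List ℤ))) (u v t : ℝ) : ℝ := pol3 realOps u v t l

/-- The three point functions of a certificate as explicit polynomials. -/
theorem poly_eq (C : Cert) (N : ℕ) (l : List (List (List ℤ))) (W n1 n2 n3 : ℕ)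
    (h : eqE W n1 n2 n3 (C.Z0E exOps N Ex.u Ex.v Ex.t) (pol3 exOps Ex.u Ex.v Ex.t l) = true)
    (u v t : ℝ) : C.Z0 N u v t = P3 l u v t := by
  have h1 := eqE_spec W n1 n2 n3 _ _ h u v t
  rw [C.ev_Z0E exOps (exOps_isEv u v t), ev_pol3 exOps (exOps_isEv u v t)] at h1
  exact h1

theorem poly_eq1 (C : Cert) (N : ℕ) (l : List (List (List ℤ))) (W n1 n2 n3 : ℕ)
    (h : eqE W n1 n2 n3 (C.Z1E exOps N Ex.u Ex.v Ex.t) (pol3 exOps Ex.u Ex.v Ex.t l) = true)
    (u v t : ℝ) : C.Z1 N u v t = P3 l u v t := by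
  have h1 := eqE_spec W n1 n2 n3 _ _ h u v t
  rw [C.ev_Z1E exOps (exOps_isEv u v t), ev_pol3 exOps (exOps_isEv u v t)] at h1
  exact h1

/-- The first inner product. -/
def xu : Ex := Ex.add Ex.u (Ex.c 0 1)

/-- The second inner product. -/
def xv : Ex := Ex.add Ex.v (Ex.c 0 1)

/-- The third inner product. -/
def xt : Ex := Ex.add Ex.t (Ex.c 0 1)

/-- The values at the shifted point. -/
noncomputable abbrev ev (u v t : ℝ) : Ex → ℝ := Ex.evR (u + 1) (v + 1) (t + 1)

theorem ev_xu (u v t : ℝ) : ev u v t xu = u := by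
  simp [ev, xu, Ex.evR]

theorem ev_xv (u v t : ℝ) : ev u v t xv = v := by
  simp [ev, xv, Ex.evR]

theorem ev_xt (u v t : ℝ) : ev u v t xt = t := by
  simp [ev, xt, Ex.evR]

/-- The Gram determinant. -/
def gmE : Ex :=
  Ex.add (Ex.add (Ex.c 1 0) (Ex.mul (Ex.c 2 0) (Ex.mul xu (Ex.mul xv xt))))
    (Ex.neg (Ex.add (Ex.mul xu xu) (Ex.add (Ex.mul xv xv) (Ex.mul xt xt))))

theorem ev_gmE (u v t : ℝ) : ev u v t gmE = 1 + 2 * u * v * t - u ^ 2 - v ^ 2 - t ^ 2 := by
  have h1 : ev u v t gmE = (((1 : ℕ) : ℝ) - ((0 : ℕ) : ℝ) + (((2 : ℕ) : ℝ) - ((0 : ℕ) : ℝ)) *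
      (ev u v t xu * (ev u v t xv * ev u v t xt))) + -(ev u v t xu * ev u v t xu +
      (ev u v t xv * ev u v t xv + ev u v t xt * ev u v t xt)) := rfl
  rw [h1, ev_xu, ev_xv, ev_xt]
  push_cast
  ring

/-- The items: the Gram determinant, the conditions, `P`, and `P` plus multiples of nonnegative
expressions. -/
def items (n1 n2 n3 : ℕ) (P : Ex) (cs : List Ex) (ls : List (ℕ × Ex)) : List EIt :=
  ⟨2, 2, 2, Ex.neg gmE⟩ :: (cs.map (fun c => ⟨1, 1, 1, Ex.neg c⟩) ++
    (⟨n1, n2, n3, Ex.neg P⟩ ::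
      ls.map (fun l => ⟨n1, n2, n3, Ex.neg (Ex.add P (Ex.mul (Ex.c l.1 0) l.2))⟩)))

theorem neg_of {W0 W1 e fuel : ℕ} {bx : Box} {n1 n2 n3 : ℕ} {P : Ex} {cs : List Ex}
    {ls : List (ℕ × Ex)} {ss : List ℕ} {cert : ℕ}
    (h : checkE W0 W1 e fuel bx (items n1 n2 n3 P cs ls) ss cert = true) (hW0 : 2 ≤ W0)
    (hW1 : 2 ≤ W1) (hq : 0 < bx.q1 ∧ 0 < bx.q2 ∧ 0 < bx.q3) {u v t : ℝ}
    (hb : bx.In (u + 1) (v + 1) (t + 1)) (hg : Gm u v t) (hc : ∀ c ∈ cs, 0 ≤ ev u v t c)
    (hl : ∀ l ∈ ls, 0 ≤ ev u v t l.2) : ev u v t P < 0 := by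
  obtain ⟨p, hp, h1⟩ := checkE_spec W0 W1 e fuel bx _ ss cert hW0 hW1 hq h _ _ _ hb
  rw [items, List.mem_cons, List.mem_append, List.mem_cons, List.mem_map, List.mem_map] at hp
  rcases hp with rfl | ⟨c, hc1, rfl⟩ | rfl | ⟨l, hl1, rfl⟩
  · have h2 := ev_gmE u v t
    have h3 : Ex.evR (u + 1) (v + 1) (t + 1) (Ex.neg gmE) = -ev u v t gmE := rfl
    rw [h3, h2] at h1
    unfold Gm at hg
    linarith
  · have h3 : Ex.evR (u + 1) (v + 1) (t + 1) (Ex.neg c) = -ev u v t c := rfl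
    have := hc c hc1
    rw [h3] at h1
    linarith
  · have h3 : Ex.evR (u + 1) (v + 1) (t + 1) (Ex.neg P) = -ev u v t P := rfl
    rw [h3] at h1
    linarith
  · have h3 : Ex.evR (u + 1) (v + 1) (t + 1) (Ex.neg (Ex.add P (Ex.mul (Ex.c l.1 0) l.2))) =
        -(ev u v t P + (((l.1 : ℕ) : ℝ) - ((0 : ℕ) : ℝ)) * ev u v t l.2) := rfl
    have h4 := hl l hl1
    rw [h3] at h1
    have h5 : (0 : ℝ) ≤ (l.1 : ℝ) * ev u v t l.2 := mul_nonneg (Nat.cast_nonneg _) h4
    push_cast at h1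
    linarith

/-- The sum of the products. -/
def comb : List (Ex × Ex) → Ex
  | [] => Ex.c 0 0
  | [w] => Ex.mul w.1 w.2
  | w :: l => Ex.add (Ex.mul w.1 w.2) (comb l)

theorem ev_comb (u v t : ℝ) (l : List (Ex × Ex)) :
    ev u v t (comb l) = (l.map fun w => ev u v t w.1 * ev u v t w.2).sum := by
  induction l with
  | nil => simp [comb, ev, Ex.evR]
  | cons w l ih =>
    cases l with
    | nil => simp [comb, ev, Ex.evR]
    | cons w' l =>
      rw [List.map_cons, List.sum_cons, ← ih]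
      rfl

/-- `q (2 x - 1)`. -/
def sE (q : ℕ) (x : Ex) : Ex := Ex.add (Ex.mul (Ex.c (2 * q) 0) x) (Ex.c 0 q)

/-- Difference. -/
def sb (a b : Ex) : Ex := Ex.add a (Ex.neg b)

theorem ev_sE (q : ℕ) (x : Ex) (u v t : ℝ) : ev u v t (sE q x) = q * (2 * ev u v t x - 1) := by
  have h : ev u v t (sE q x) = (((2 * q : ℕ) : ℝ) - ((0 : ℕ) : ℝ)) * ev u v t x +
    (((0 : ℕ) : ℝ) - (q : ℝ)) := rfl
  rw [h]
  push_cast
  ring

theorem ev_sb (a b : Ex) (u v t : ℝ) : ev u v t (sb a b) = ev u v t a - ev u v t b := by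
  have h : ev u v t (sb a b) = ev u v t a + -ev u v t b := rfl
  rw [h, sub_eq_add_neg]

theorem ev_add (a b : Ex) (u v t : ℝ) : ev u v t (Ex.add a b) = ev u v t a + ev u v t b := rfl

theorem ev_c (p : ℕ) (u v t : ℝ) : ev u v t (Ex.c p 0) = p := by
  have h : ev u v t (Ex.c p 0) = (p : ℝ) - ((0 : ℕ) : ℝ) := rfl
  rw [h, Nat.cast_zero, sub_zero]

theorem ev_pol (x y z : Ex) (l : List (List (List ℤ))) (u v t : ℝ) :
    ev u v t (pol3 exOps x y z l) = P3 l (ev u v t x) (ev u v t y) (ev u v t z) :=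
  ev_pol3 exOps (exOps_isEv _ _ _) x y z l

/-- The weights and the polynomials. -/
structure Dt where
  p : ℕ
  q : ℕ
  z : List (List (List ℤ))
  a : List (List (List ℤ))

namespace Dt

variable (d : Dt)

/-- `Z0`. -/
def Z : Ex := pol3 exOps xu xv xt d.z
/-- `Z1 u v t`. -/
def A : Ex := pol3 exOps xu xv xt d.a
/-- `Z1 u t v`. -/
def B : Ex := pol3 exOps xu xt xv d.a
/-- `Z1 v t u`. -/
def D : Ex := pol3 exOps xv xt xu d.a
/-- The first side. -/
def e : Ex := sE d.q xu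
/-- The second side. -/
def f : Ex := sE d.q xv
/-- The third side. -/
def g : Ex := sE d.q xt
/-- The total lift. -/
def L : Ex := Ex.c d.p 0
/-- Twice the total lift. -/
def L2 : Ex := Ex.c (2 * d.p) 0

end Dt

/-- The order of the first two. -/
def uv : Ex := sb Ex.u Ex.v
/-- The order of the last two. -/
def vt : Ex := sb Ex.v Ex.t

theorem ev_uv (u v t : ℝ) : ev u v t uv = u - v := by
  rw [uv, ev_sb]
  have h1 : ev u v t Ex.u = u + 1 := rfl
  have h2 : ev u v t Ex.v = v + 1 := rfl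
  rw [h1, h2]
  ring

theorem ev_vt (u v t : ℝ) : ev u v t vt = v - t := by
  rw [vt, ev_sb]
  have h1 : ev u v t Ex.t = t + 1 := rfl
  have h2 : ev u v t Ex.v = v + 1 := rfl
  rw [h1, h2]
  ring

end Pool.Agent.DVX
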